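import Pool.Agent.TH378.CW.Main

/-!
# Transport to Euclidean space
-/

set_option autoImplicit false

namespace Pool.Agent.TH378.CW

open MeasureTheory Metric
open scoped Real RealInnerProductSpace

/-- Euclidean four-space. -/
abbrev E4 := EuclideanSpace ℝ (Fin 4)

/-- The isometry. -/
noncomputable def T : E4 ≃ₗᵢ[ℝ] H := Quaternion.linearIsometryEquivTuple.symm

/-- The similarity `x ↦ w⁻¹ T x`. -/
noncomputable def Φ (w : ℝ) (hw : w ≠ 0) : E4 ≃ₜ H :=
  T.toHomeomorph.trans (Homeomorph.smulOfNeZero w⁻¹ (inv_ne_zero hw))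

theorem Φ_apply (w : ℝ) (hw : w ≠ 0) (x : E4) : Φ w hw x = w⁻¹ • T x := rfl

theorem width_pos {K : Set E4} (hi : (interior K).Nonempty) {w : ℝ}
    (hw : ∀ u : E4, ‖u‖ = 1 → IsLUB {s : ℝ | ∃ x ∈ K, ∃ y ∈ K, s = inner ℝ u (x - y)} w) :
    0 < w := by
  obtain ⟨x, hx⟩ := hi
  obtain ⟨ε, hε, hball⟩ := Metric.mem_nhds_iff.1 (mem_interior_iff_mem_nhds.1 hx)
  set u : E4 := EuclideanSpace.single 0 1 with hu
  have hu1 : ‖u‖ = 1 := by rw [hu]; simp
  have hm : x + (ε / 2) • u ∈ K := by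
    apply hball
    rw [mem_ball, dist_eq_norm, add_sub_cancel_left, norm_smul, hu1, mul_one, Real.norm_eq_abs,
      abs_of_pos (by positivity)]
    linarith
  have h := (hw u hu1).1 ⟨x + (ε / 2) • u, hm, x, interior_subset hx, rfl⟩
  rw [add_sub_cancel_left, real_inner_smul_right, real_inner_self_eq_norm_sq, hu1] at h
  linarith

theorem dist_le {K : Set E4} {w : ℝ} (hw0 : 0 < w)
    (hw : ∀ u : E4, ‖u‖ = 1 → IsLUB {s : ℝ | ∃ x ∈ K, ∃ y ∈ K, s = inner ℝ u (x - y)} w)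
    {x y : E4} (hx : x ∈ K) (hy : y ∈ K) : ‖x - y‖ ≤ w := by
  by_cases h : x - y = 0
  · rw [h, norm_zero]; exact hw0.le
  have hn : 0 < ‖x - y‖ := norm_pos_iff.2 h
  have hu : ‖‖x - y‖⁻¹ • (x - y)‖ = 1 := by
    rw [norm_smul, norm_inv, norm_norm, inv_mul_cancel₀ hn.ne']
  have := (hw _ hu).1 ⟨x, hx, y, hy, rfl⟩
  rw [real_inner_smul_left, real_inner_self_eq_norm_sq] at this
  have e : ‖x - y‖⁻¹ * ‖x - y‖ ^ 2 = ‖x - y‖ := by field_simp
  rwa [e] at this

theorem attain {K : Set E4} (hc : IsCompact K) (hne : K.Nonempty) {w : ℝ} (hw0 : 0 < w)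
    (hw : ∀ u : E4, ‖u‖ = 1 → IsLUB {s : ℝ | ∃ x ∈ K, ∃ y ∈ K, s = inner ℝ u (x - y)} w)
    (u : E4) (hu : ‖u‖ = 1) : ∃ x ∈ K, ∃ y ∈ K, x - y = w • u := by
  have hcc : IsCompact (K ×ˢ K) := hc.prod hc
  obtain ⟨⟨x, y⟩, ⟨hx, hy⟩, hmax⟩ := hcc.exists_isMaxOn (hne.prod hne)
    (f := fun p : E4 × E4 => inner ℝ u (p.1 - p.2)) (by fun_prop)
  have h1 : inner ℝ u (x - y) = w := by
    apply le_antisymm
    · exact (hw u hu).1 ⟨x, hx, y, hy, rfl⟩
    · apply (hw u hu).2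
      rintro s ⟨x', hx', y', hy', rfl⟩
      exact hmax (Set.mk_mem_prod hx' hy')
  refine ⟨x, hx, y, hy, ?_⟩
  have h2 := dist_le hw0 hw hx hy
  have h3 : ‖(x - y) - w • u‖ ^ 2 ≤ 0 := by
    rw [norm_sub_sq_real, real_inner_smul_right, real_inner_comm, h1, norm_smul, hu, mul_one,
      Real.norm_eq_abs, sq_abs]
    have : ‖x - y‖ ^ 2 ≤ w ^ 2 := by gcongr
    nlinarith
  have h4 : ‖(x - y) - w • u‖ = 0 := by
    have := sq_nonneg ‖(x - y) - w • u‖
    exact pow_eq_zero_iff (two_ne_zero) |>.1 (le_antisymm h3 this)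
  exact sub_eq_zero.1 (norm_eq_zero.1 h4)

theorem wid_image {K : Set E4} (hc : IsCompact K) (hcv : Convex ℝ K) (hne : K.Nonempty) {w : ℝ}
    (hw0 : 0 < w)
    (hw : ∀ u : E4, ‖u‖ = 1 → IsLUB {s : ℝ | ∃ x ∈ K, ∃ y ∈ K, s = inner ℝ u (x - y)} w) :
    Wid (Φ w hw0.ne' '' K) := by
  refine ⟨hc.image (Φ w hw0.ne').continuous, ?_, ?_, ?_⟩
  · have : Φ w hw0.ne' '' K = (w⁻¹ • (T.toLinearEquiv : E4 →ₗ[ℝ] H)) '' K := rfl
    rw [this]
    exact hcv.linear_image _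
  · rintro _ ⟨x, hx, rfl⟩ _ ⟨y, hy, rfl⟩
    rw [Φ_apply, Φ_apply, ← smul_sub, ← map_sub, norm_smul, T.norm_map, norm_inv,
      Real.norm_eq_abs, abs_of_pos hw0, inv_mul_le_iff₀ hw0, mul_one]
    exact dist_le hw0 hw hx hy
  · intro u hu
    obtain ⟨x, hx, y, hy, h⟩ := attain hc hne hw0 hw (T.symm u) (by rw [T.symm.norm_map, hu])
    refine ⟨Φ w hw0.ne' x, ⟨x, hx, rfl⟩, y, hy, ?_⟩
    have : y = x - w • T.symm u := by rw [← h]; abel
    rw [this, Φ_apply, Φ_apply, map_sub, map_smul, T.apply_symm_apply, smul_sub, smul_smul,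
      inv_mul_cancel₀ hw0.ne', one_smul]

theorem main_E {K : Set E4} (hc : IsCompact K) (hcv : Convex ℝ K) (hi : (interior K).Nonempty)
    {w : ℝ}
    (hw : ∀ u : E4, ‖u‖ = 1 → IsLUB {s : ℝ | ∃ x ∈ K, ∃ y ∈ K, s = inner ℝ u (x - y)} w) :
    ∃ D : Finset E4, D.card ≤ 8 ∧
        ∀ x ∈ frontier K, ∃ d ∈ D, ∃ t : ℝ, 0 < t ∧ x + t • d ∈ interior K := by
  classical
  have hw0 := width_pos hi hw
  have hW := wid_image hc hcv (hi.mono interior_subset) hw0 hw
  set F := Φ w hw0.ne' with hF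
  have hint : interior (F '' K) = F '' interior K := (F.image_interior K).symm
  have hfr : frontier (F '' K) = F '' frontier K := (F.image_frontier K).symm
  obtain ⟨e, he⟩ := main_H hW (by rw [hint]; exact hi.image _)
  refine ⟨(Finset.univ.image fun i : Fin 4 => T.symm (e i)) ∪
    (Finset.univ.image fun i : Fin 4 => T.symm (-e i)), ?_, ?_⟩
  · refine (Finset.card_union_le _ _).trans ?_
    have h1 := Finset.card_image_le (s := (Finset.univ : Finset (Fin 4)))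
      (f := fun i => T.symm (e i))
    have h2 := Finset.card_image_le (s := (Finset.univ : Finset (Fin 4)))
      (f := fun i => T.symm (-e i))
    rw [Finset.card_univ, Fintype.card_fin] at h1 h2
    omega
  · intro x hx
    have key : ∀ (d : H) (t : ℝ), 0 < t → F x + t • d ∈ interior (F '' K) →
        ∃ t : ℝ, 0 < t ∧ x + t • T.symm d ∈ interior K := by
      intro d t ht h
      refine ⟨w * t, by positivity, ?_⟩
      rw [hint] at h
      obtain ⟨y, hy, hyx⟩ := h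
      have : y = x + (w * t) • T.symm d := by
        apply F.injective
        rw [hyx, hF, Φ_apply, Φ_apply, map_add, map_smul, T.apply_symm_apply, smul_add, smul_smul,
          ← mul_assoc, inv_mul_cancel₀ hw0.ne', one_mul]
      rw [← this]; exact hy
    obtain ⟨i, h⟩ := he (F x) (by rw [hfr]; exact ⟨x, hx, rfl⟩)
    rcases h with ⟨t, ht, h⟩ | ⟨t, ht, h⟩
    · obtain ⟨t', ht', h'⟩ := key _ _ ht h
      refine ⟨T.symm (e i), ?_, t', ht', h'⟩
      rw [Finset.mem_union]; left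
      exact Finset.mem_image_of_mem _ (Finset.mem_univ i)
    · obtain ⟨t', ht', h'⟩ := key _ _ ht h
      refine ⟨T.symm (-e i), ?_, t', ht', h'⟩
      rw [Finset.mem_union]; right
      exact Finset.mem_image_of_mem (fun i => T.symm (-e i)) (Finset.mem_univ i)

end Pool.Agent.TH378.CW
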