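import Mathlib

/-!
# Bodies of constant width one in the quaternions: common definitions
-/

set_option autoImplicit false

namespace Pool.Agent.TH378.CW

open MeasureTheory Metric
open scoped Real RealInnerProductSpace

/-- The ambient Euclidean space of dimension four. -/
abbrev H := Quaternion ℝ

noncomputable instance instMeasurableSpaceH : MeasurableSpace H := borel H
instance instBorelSpaceH : BorelSpace H := ⟨rfl⟩

/-- A compact convex set of diameter at most one such that every unit vector is a difference of two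
of its points (constant width one). -/
structure Wid (K : Set H) : Prop where
  cpt : IsCompact K
  cvx : Convex ℝ K
  diam : ∀ x ∈ K, ∀ y ∈ K, ‖x - y‖ ≤ 1
  dia : ∀ u : H, ‖u‖ = 1 → ∃ q ∈ K, q - u ∈ K

/-- The normal cone of `K` at `q`. -/
def Nc (K : Set H) (q : H) : Set H := {u | ∀ x ∈ K, ⟪u, x - q⟫ ≤ 0}

/-- The imaginary unit i. -/
def qI : H := ⟨0, 1, 0, 0⟩

/-- The imaginary unit j. -/
def qJ : H := ⟨0, 0, 1, 0⟩

/-- The unit quaternion `cos t + sin t * i`. -/
noncomputable def U (t : ℝ) : H := ⟨Real.cos t, Real.sin t, 0, 0⟩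

/-- The orthogonal frames used for the illumination. -/
noncomputable def fr (y : H) (φ ψ : ℝ) : Fin 4 → H :=
  ![U φ * y, U (φ + π / 2) * y, U ψ * qJ * y, U (ψ + π / 2) * qJ * y]

/-- Some unit vector of the cone is orthogonal to `e i`, for every `i`. -/
def Bad (C : Set H) (e : Fin 4 → H) : Prop := ∀ i, ∃ u ∈ C, ‖u‖ = 1 ∧ ⟪u, e i⟫ = 0

/-- A closed convex cone whose unit vectors make angles at most sixty degrees. -/
structure Cone60 (C : Set H) : Prop where
  closed : IsClosed C
  cvx : Convex ℝ C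
  smul : ∀ u ∈ C, ∀ t : ℝ, 0 ≤ t → t • u ∈ C
  ang : ∀ u ∈ C, ∀ v ∈ C, ‖u‖ = 1 → ‖v‖ = 1 → 1 / 2 ≤ ⟪u, v⟫

/-- The squared length of the projection of `y` to the plane spanned by `c` and `i c`
(equivalently of `c` to the plane spanned by `y`, `i y` if `y` is a unit vector). -/
noncomputable def pr (c y : H) : ℝ := ⟪c, y⟫ ^ 2 + ⟪c, qI * y⟫ ^ 2

/-- Upper bound for the arc sine by two chords. -/
noncomputable def Tc (x : ℝ) : ℝ :=
  max 0 (min (π / 2) (max (π / 3 * x) (2 * π / 3 * x - π / 6)))

/-- The parameter space of frames. -/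
def Om : Set (H × ℝ × ℝ) :=
  ball (0 : H) 1 ×ˢ (Set.Icc (0 : ℝ) (π / 2) ×ˢ Set.Icc (0 : ℝ) (π / 2))

instance instFiniteDimensionalH : FiniteDimensional ℝ H := inferInstance

end Pool.Agent.TH378.CW
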