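import Pool.Agent.TH378.CW.Frame

/-!
# Quadratic forms: duality and diagonalization
-/

set_option autoImplicit false
set_option linter.unusedSimpArgs false
set_option linter.unusedVariables false

namespace Pool.Agent.TH378.CW

open MeasureTheory Metric
open scoped Real RealInnerProductSpace

theorem norm_sq_decomp {c w x : H} (hc : ‖c‖ = 1) (hw : ‖w‖ = 1) (hcw : ⟪c, w⟫ = 0) :
    ‖x - ⟪x, c⟫ • c - ⟪x, w⟫ • w‖ ^ 2 = ‖x‖ ^ 2 - ⟪x, c⟫ ^ 2 - ⟪x, w⟫ ^ 2 := by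
  rw [← real_inner_self_eq_norm_sq, ← real_inner_self_eq_norm_sq]
  simp only [inner_sub_left, inner_sub_right, real_inner_smul_left, real_inner_smul_right]
  rw [real_inner_comm x c, real_inner_comm x w, real_inner_comm w c]
  have h1 : ⟪c, c⟫ = 1 := by rw [real_inner_self_eq_norm_sq, hc, one_pow]
  have h2 : ⟪w, w⟫ = 1 := by rw [real_inner_self_eq_norm_sq, hw, one_pow]
  have h3 : ⟪w, c⟫ = 0 := by rw [real_inner_comm]; exact hcw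
  simp only [h1, h2, h3, hcw, real_inner_comm x c, real_inner_comm x w]
  rw [real_inner_comm c x, real_inner_comm w x]
  ring

theorem inner_decomp {c w x e : H} (hc : ‖c‖ = 1) (hw : ‖w‖ = 1) (hcw : ⟪c, w⟫ = 0) :
    ⟪x - ⟪x, c⟫ • c - ⟪x, w⟫ • w, e - ⟪e, c⟫ • c - ⟪e, w⟫ • w⟫ =
      ⟪x, e⟫ - ⟪x, c⟫ * ⟪e, c⟫ - ⟪x, w⟫ * ⟪e, w⟫ := by
  simp only [inner_sub_left, inner_sub_right, real_inner_smul_left, real_inner_smul_right]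
  have h1 : ⟪c, c⟫ = 1 := by rw [real_inner_self_eq_norm_sq, hc, one_pow]
  have h2 : ⟪w, w⟫ = 1 := by rw [real_inner_self_eq_norm_sq, hw, one_pow]
  have h3 : ⟪w, c⟫ = 0 := by rw [real_inner_comm]; exact hcw
  rw [real_inner_comm e c, real_inner_comm e w]
  simp only [h1, h2, h3, hcw]
  ring

/-- pure real algebra behind `form_dual` -/
theorem dual_alg {α β ν xc xw X ec ew E t : ℝ} (hα : 0 < α) (hβ : 0 < β) (hν : 0 < ν)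
    (hX : 0 ≤ X) (hE : 0 ≤ E) (ht : |t| ≤ X * E) (h0 : xc * ec + xw * ew + t = 0)
    (hQ : β * xw ^ 2 + ν * X ^ 2 ≤ α * xc ^ 2) (hx : 0 < xc ^ 2) :
    ν * ec ^ 2 / α ≤ ν * ew ^ 2 / β + E ^ 2 := by
  have k1 : (xw * ew + t) ^ 2 * (β * ν) ≤ (β * xw ^ 2 + ν * X ^ 2) * (ν * ew ^ 2 + β * E ^ 2) := by
    have a1 : |xw * ew + t| ≤ |xw| * |ew| + X * E := by
      calc |xw * ew + t| ≤ |xw * ew| + |t| := abs_add_le _ _
        _ ≤ |xw| * |ew| + X * E := by rw [abs_mul]; gcongr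
    have a2 : (xw * ew + t) ^ 2 ≤ (|xw| * |ew| + X * E) ^ 2 := by
      rw [← sq_abs (xw * ew + t)]
      gcongr
    have a3 : |xw| ^ 2 = xw ^ 2 := sq_abs _
    have a4 : |ew| ^ 2 = ew ^ 2 := sq_abs _
    rw [← a3, ← a4]
    calc (xw * ew + t) ^ 2 * (β * ν) ≤ (|xw| * |ew| + X * E) ^ 2 * (β * ν) := by gcongr
      _ ≤ _ := by nlinarith [sq_nonneg (β * |xw| * E - ν * X * |ew|)]
  have k2 : (xc * ec) ^ 2 * (β * ν) ≤ α * xc ^ 2 * (ν * ew ^ 2 + β * E ^ 2) := by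
    have : xc * ec = -(xw * ew + t) := by linarith
    rw [this, neg_sq]
    refine k1.trans ?_
    gcongr
  have k3 : ec ^ 2 * (β * ν) ≤ α * (ν * ew ^ 2 + β * E ^ 2) := by
    rw [← mul_le_mul_iff_right₀ hx]
    nlinarith
  rw [div_add' _ _ _ hβ.ne', div_le_div_iff₀ hα hβ]
  nlinarith

theorem form_dual {c w x e : H} (hc : ‖c‖ = 1) (hw : ‖w‖ = 1) (hcw : ⟪c, w⟫ = 0)
    {ηp ηm ν : ℝ} (hν : 0 < ν) (hηp : ν < ηp) (hηm : 0 ≤ ηm) (hx : x ≠ 0)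
    (hQ : ν * ‖x‖ ^ 2 + ηm * ⟪x, w⟫ ^ 2 ≤ ηp * ⟪x, c⟫ ^ 2) (he : ⟪x, e⟫ = 0) :
    ηp / (ηp - ν) * ⟪c, e⟫ ^ 2 + ηm / (ηm + ν) * ⟪w, e⟫ ^ 2 ≤ ‖e‖ ^ 2 := by
  have hα : 0 < ηp - ν := by linarith
  have hβ : 0 < ηm + ν := by linarith
  have n1 := norm_sq_decomp (x := x) hc hw hcw
  have n2 := norm_sq_decomp (x := e) hc hw hcw
  have n3 := inner_decomp (x := x) (e := e) hc hw hcw
  have hx2 : 0 < ‖x‖ ^ 2 := by have := norm_pos_iff.2 hx; positivity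
  have hxc : 0 < ⟪x, c⟫ ^ 2 := by
    by_contra hcon
    push Not at hcon
    have : ⟪x, c⟫ ^ 2 = 0 := le_antisymm hcon (sq_nonneg _)
    rw [this, mul_zero] at hQ
    have : 0 < ν * ‖x‖ ^ 2 + ηm * ⟪x, w⟫ ^ 2 := by positivity
    linarith
  have key := dual_alg (α := ηp - ν) (β := ηm + ν) (ν := ν) (xc := ⟪x, c⟫) (xw := ⟪x, w⟫)
    (X := ‖x - ⟪x, c⟫ • c - ⟪x, w⟫ • w‖) (ec := ⟪e, c⟫) (ew := ⟪e, w⟫)
    (E := ‖e - ⟪e, c⟫ • c - ⟪e, w⟫ • w‖)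
    (t := ⟪x - ⟪x, c⟫ • c - ⟪x, w⟫ • w, e - ⟪e, c⟫ • c - ⟪e, w⟫ • w⟫) hα hβ hν
    (norm_nonneg _) (norm_nonneg _) (abs_real_inner_le_norm _ _)
    (by rw [n3, he]; ring) (by rw [n1]; nlinarith) hxc
  rw [n2] at key
  rw [real_inner_comm e c, real_inner_comm e w]
  have e1 : ηp / (ηp - ν) = 1 + ν / (ηp - ν) := by field_simp; ring
  have e2 : ηm / (ηm + ν) = 1 - ν / (ηm + ν) := by field_simp; ring
  rw [e1, e2]
  have e3 : ν * ⟪e, c⟫ ^ 2 / (ηp - ν) = ν / (ηp - ν) * ⟪e, c⟫ ^ 2 := by ring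
  have e4 : ν * ⟪e, w⟫ ^ 2 / (ηm + ν) = ν / (ηm + ν) * ⟪e, w⟫ ^ 2 := by ring
  rw [e3, e4] at key
  linarith

/-- If a unit vector `u` orthogonal to `e` satisfies `1 - s ≤ ⟪u, c⟫ ^ 2` then
`⟪c, e⟫ ^ 2 ≤ s * ‖e‖ ^ 2`. -/
theorem cap_dual {c u e : H} {s : ℝ} (hc : ‖c‖ = 1) (hu : ‖u‖ = 1) (h : 1 - s ≤ ⟪u, c⟫ ^ 2)
    (he : ⟪u, e⟫ = 0) : ⟪c, e⟫ ^ 2 ≤ s * ‖e‖ ^ 2 := by
  have h1 : ⟪c - ⟪u, c⟫ • u, e⟫ = ⟪c, e⟫ := by
    rw [inner_sub_left, real_inner_smul_left, he, mul_zero, sub_zero]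
  have h2 : ‖c - ⟪u, c⟫ • u‖ ^ 2 = 1 - ⟪u, c⟫ ^ 2 := by
    rw [norm_sub_sq_real, hc, norm_smul, hu, real_inner_smul_right, real_inner_comm c u]
    rw [mul_one, Real.norm_eq_abs, sq_abs]
    ring
  have h3 := abs_real_inner_le_norm (c - ⟪u, c⟫ • u) e
  rw [h1] at h3
  calc ⟪c, e⟫ ^ 2 = |⟪c, e⟫| ^ 2 := (sq_abs _).symm
    _ ≤ (‖c - ⟪u, c⟫ • u‖ * ‖e‖) ^ 2 := by gcongr
    _ = (1 - ⟪u, c⟫ ^ 2) * ‖e‖ ^ 2 := by rw [mul_pow, h2]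
    _ ≤ s * ‖e‖ ^ 2 := by
        apply mul_le_mul_of_nonneg_right _ (sq_nonneg _)
        linarith

/-- Diagonalization of an indefinite binary form. -/
theorem diag {a b d : ℝ} (ha : 0 < a) (hb : 0 < b) :
    ∃ ηp ηm p q : ℝ, 0 < ηp ∧ 0 < ηm ∧ p ^ 2 + q ^ 2 = 1 ∧ ηp * ηm = a * b + d ^ 2 / 4 ∧
      b ≤ ηm ∧ a ≤ ηp ∧
      ∀ x y : ℝ, a * x ^ 2 + d * x * y - b * y ^ 2 =
        ηp * (p * x + q * y) ^ 2 - ηm * (-q * x + p * y) ^ 2 := by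
  set R := √((a + b) ^ 2 + d ^ 2) with hR
  have hR2 : R ^ 2 = (a + b) ^ 2 + d ^ 2 := Real.sq_sqrt (by positivity)
  have hR0 : 0 ≤ R := Real.sqrt_nonneg _
  have hRab : a + b ≤ R := by
    rw [hR]; apply Real.le_sqrt_of_sq_le; nlinarith [sq_nonneg d]
  set ηp := (a - b + R) / 2 with hp
  set ηm := (b - a + R) / 2 with hm
  have h1 : a ≤ ηp := by rw [hp]; linarith
  have h2 : b ≤ ηm := by rw [hm]; linarith
  set N := √((ηp + b) ^ 2 + (d / 2) ^ 2) with hN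
  have hNpos : 0 < (ηp + b) ^ 2 + (d / 2) ^ 2 := by
    have : 0 < ηp + b := by linarith
    positivity
  have hN2 : N ^ 2 = (ηp + b) ^ 2 + (d / 2) ^ 2 := Real.sq_sqrt hNpos.le
  have hN0 : 0 < N := Real.sqrt_pos.2 hNpos
  have hprod : ηp * ηm = a * b + d ^ 2 / 4 := by
    rw [hp, hm]; nlinarith
  have hchar : (ηp - a) * (ηp + b) = d ^ 2 / 4 := by
    rw [hp]; nlinarith
  refine ⟨ηp, ηm, (ηp + b) / N, (d / 2) / N, by linarith, by linarith, ?_, hprod, h2, h1, ?_⟩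
  · rw [div_pow, div_pow, ← add_div, hN2, div_self hNpos.ne']
  · intro x y
    have hηm : ηm = ηp - a + b := by rw [hp, hm]; ring
    have e1 : (ηp + b) / N * x + d / 2 / N * y = ((ηp + b) * x + d / 2 * y) / N := by ring
    have e2 : -(d / 2 / N) * x + (ηp + b) / N * y = (-(d / 2) * x + (ηp + b) * y) / N := by ring
    rw [e1, e2, div_pow, div_pow, hN2, hηm]
    rw [mul_div_assoc', mul_div_assoc', ← sub_div, eq_div_iff hNpos.ne']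
    have hd : d ^ 2 = 4 * ((ηp - a) * (ηp + b)) := by linarith
    linear_combination ((ηp + b) * x ^ 2 + d * x * y - (ηp + b) * y ^ 2) / 4 * hd

end Pool.Agent.TH378.CW
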