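import Pool.Agent.TH378.CW.TcBound
import Pool.Agent.TH378.CW.Forms
import Pool.Agent.TH897.J1042

/-!
# The measure of the bad frames of a cone contained in a cap
-/

set_option autoImplicit false

namespace Pool.Agent.TH378.CW

open MeasureTheory Metric
open scoped Real RealInnerProductSpace

/-- The set of bad frames. -/
def BadSet (C : Set H) : Set (H × ℝ × ℝ) := {p | p ∈ Om ∧ Bad C (fr p.1 p.2.1 p.2.2)}

/-- The arc condition in the first plane. -/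
def Arc1 (c : H) (s : ℝ) (y : H) : Set ℝ :=
  {φ ∈ Set.Icc (0 : ℝ) (π / 2) |
    (⟪c, y⟫ * Real.cos φ + ⟪c, qI * y⟫ * Real.sin φ) ^ 2 ≤ s * ‖y‖ ^ 2 ∧
      (⟪c, qI * y⟫ * Real.cos φ - ⟪c, y⟫ * Real.sin φ) ^ 2 ≤ s * ‖y‖ ^ 2}

/-- The arc condition in the second plane. -/
def Arc2 (c : H) (s : ℝ) (y : H) : Set ℝ :=
  {ψ ∈ Set.Icc (0 : ℝ) (π / 2) |
    (⟪c, qJ * y⟫ * Real.cos ψ + ⟪c, qI * qJ * y⟫ * Real.sin ψ) ^ 2 ≤ s * ‖y‖ ^ 2 ∧
      (⟪c, qI * qJ * y⟫ * Real.cos ψ - ⟪c, qJ * y⟫ * Real.sin ψ) ^ 2 ≤ s * ‖y‖ ^ 2}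

theorem arcs_le {c : H} (hc : ‖c‖ = 1) {s κ m : ℝ} (hκ : κ = 4 * s - 1) (hκ0 : 0 ≤ κ)
    (hκ1 : κ ≤ 1 / 2) (hm : MOK κ m) (y : H) (hy : y ≠ 0) :
    volume (Arc1 c s y) * volume (Arc2 c s y) ≤ ENNReal.ofReal (π ^ 2 / 9 * m) := by
  have hy2 : 0 < ‖y‖ ^ 2 := by have := norm_pos_iff.2 hy; positivity
  have hpc := pr_compl c y
  rw [hc, one_pow, one_mul] at hpc
  have hp : pr c y = ⟪c, y⟫ ^ 2 + ⟪c, qI * y⟫ ^ 2 := rfl
  rcases (pr_nonneg c y).eq_or_lt with h0 | h0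
  · -- the first plane is orthogonal to c, the second arc is empty
    have : Arc2 c s y = ∅ := by
      rw [Set.eq_empty_iff_forall_notMem]
      rintro ψ ⟨-, h1, h2⟩
      have := Real.sin_sq_add_cos_sq ψ
      rw [← h0, sub_zero] at hpc
      have h3 : (⟪c, qJ * y⟫ * Real.cos ψ + ⟪c, qI * qJ * y⟫ * Real.sin ψ) ^ 2 +
        (⟪c, qI * qJ * y⟫ * Real.cos ψ - ⟪c, qJ * y⟫ * Real.sin ψ) ^ 2 = ‖y‖ ^ 2 := by
        rw [← hpc]
        linear_combination (⟪c, qJ * y⟫ ^ 2 + ⟪c, qI * qJ * y⟫ ^ 2) * this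
      nlinarith
    rw [this, measure_empty, mul_zero]
    exact zero_le
  rcases (pr_le c y).eq_or_lt with h1 | h1
  · have : Arc1 c s y = ∅ := by
      rw [Set.eq_empty_iff_forall_notMem]
      rintro φ ⟨-, h2, h3⟩
      have := Real.sin_sq_add_cos_sq φ
      rw [hc, one_pow, one_mul] at h1
      have h4 : (⟪c, y⟫ * Real.cos φ + ⟪c, qI * y⟫ * Real.sin φ) ^ 2 +
        (⟪c, qI * y⟫ * Real.cos φ - ⟪c, y⟫ * Real.sin φ) ^ 2 = ‖y‖ ^ 2 := by
        rw [← h1, hp]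
        linear_combination (⟪c, y⟫ ^ 2 + ⟪c, qI * y⟫ ^ 2) * this
      nlinarith
    rw [this, measure_empty, zero_mul]
    exact zero_le
  rw [hc, one_pow, one_mul] at h1
  have a1 := Pool.Agent.TH897.J1042.arc ⟪c, y⟫ ⟪c, qI * y⟫ (s * ‖y‖ ^ 2) (by rw [← hp]; exact h0)
  have a2 := Pool.Agent.TH897.J1042.arc ⟪c, qJ * y⟫ ⟪c, qI * qJ * y⟫ (s * ‖y‖ ^ 2) (by rw [hpc]; linarith)
  rw [← hp] at a1
  rw [hpc] at a2
  set h := 2 * pr c y / ‖y‖ ^ 2 - 1 with hh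
  have hpr : pr c y = ‖y‖ ^ 2 * (1 + h) / 2 := by rw [hh]; field_simp; ring
  have hhm : -1 < h := by
    rw [hh]
    have : 0 < 2 * pr c y / ‖y‖ ^ 2 := by positivity
    linarith
  have hhp : h < 1 := by
    rw [hh]
    have : 2 * pr c y / ‖y‖ ^ 2 < 2 := by
      rw [div_lt_iff₀ hy2]; linarith
    linarith
  have b1 : 2 * (s * ‖y‖ ^ 2) / pr c y - 1 = (κ - h) / (1 + h) := by
    have : (1 + h) ≠ 0 := by linarith
    rw [hpr, hκ]; field_simp; ring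
  have b2 : 2 * (s * ‖y‖ ^ 2) / (‖y‖ ^ 2 - pr c y) - 1 = (κ + h) / (1 - h) := by
    have h5 : (1 - h) ≠ 0 := by linarith
    have h6 : ‖y‖ ^ 2 - pr c y = ‖y‖ ^ 2 * (1 - h) / 2 := by rw [hpr]; ring
    rw [h6, hκ]; field_simp; ring
  rw [b1] at a1
  rw [b2] at a2
  calc volume (Arc1 c s y) * volume (Arc2 c s y)
      ≤ ENNReal.ofReal (Tc ((κ - h) / (1 + h))) * ENNReal.ofReal (Tc ((κ + h) / (1 - h))) :=
        mul_le_mul' a1 a2
    _ = ENNReal.ofReal (Tc ((κ - h) / (1 + h)) * Tc ((κ + h) / (1 - h))) :=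
        (ENNReal.ofReal_mul (Tc_nonneg _)).symm
    _ ≤ ENNReal.ofReal (π ^ 2 / 9 * m) :=
        ENNReal.ofReal_le_ofReal (Tc_prod hm hκ0 hκ1 h hhm hhp)

theorem bad_meas {C : Set H} {c : H} (hc : ‖c‖ = 1) {s κ m : ℝ} (hκ : κ = 4 * s - 1)
    (hκ0 : 0 ≤ κ) (hκ1 : κ ≤ 1 / 2) (hm : MOK κ m)
    (hcap : ∀ u ∈ C, ‖u‖ = 1 → 1 - s ≤ ⟪u, c⟫ ^ 2) (Y : Set H)
    (hY : ∀ y : H, y ≠ 0 → ∀ φ ψ, Bad C (fr y φ ψ) → y ∈ Y) (hYm : MeasurableSet Y) (P : ℝ)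
    (hP : volume (Y ∩ ball (0 : H) 1) ≤ ENNReal.ofReal P * volume (ball (0 : H) 1)) :
    volume (BadSet C) ≤ ENNReal.ofReal (π ^ 2 / 9 * m * P) * volume (ball (0 : H) 1) := by
  set S : Set (H × ℝ × ℝ) := {p | p.1 ∈ Y ∩ ball (0 : H) 1 ∧ p.1 ≠ 0 ∧
    p.2.1 ∈ Arc1 c s p.1 ∧ p.2.2 ∈ Arc2 c s p.1} with hS
  have hsub : BadSet C ⊆ S ∪ ({(0 : H)} ×ˢ Set.univ) := by
    rintro ⟨y, φ, ψ⟩ ⟨⟨h1, h2, h3⟩, hb⟩
    by_cases hy : y = 0
    · right; exact ⟨hy, trivial⟩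
    left
    have key : ∀ i, ⟪c, fr y φ ψ i⟫ ^ 2 ≤ s * ‖y‖ ^ 2 := by
      intro i
      obtain ⟨u, hu, hu1, hu2⟩ := hb i
      have := cap_dual hc hu1 (hcap u hu hu1) hu2
      rwa [norm_fr] at this
    refine ⟨⟨hY y hy φ ψ hb, h1⟩, hy, ⟨h2, ?_, ?_⟩, ⟨h3, ?_, ?_⟩⟩
    · have := key 0; rwa [fr_zero] at this
    · have := key 1; rwa [fr_one] at this
    · have := key 2; rwa [fr_two] at this
    · have := key 3; rwa [fr_three] at this
  have hnull : volume (({(0 : H)} : Set H) ×ˢ (Set.univ : Set (ℝ × ℝ))) = 0 := by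
    rw [Measure.volume_eq_prod, Measure.prod_prod]
    simp
  have hSm : MeasurableSet S := by
    have m1 : MeasurableSet {p : H × ℝ × ℝ | p.1 ∈ Y ∩ ball (0 : H) 1} :=
      measurable_fst (hYm.inter measurableSet_ball)
    have m2 : MeasurableSet {p : H × ℝ × ℝ | p.1 ≠ 0} :=
      measurable_fst (measurableSet_singleton (0 : H)).compl
    have m3 : MeasurableSet {p : H × ℝ × ℝ | p.2.1 ∈ Arc1 c s p.1} := by
      apply IsClosed.measurableSet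
      apply IsClosed.inter
      · exact isClosed_Icc.preimage (by fun_prop)
      have c1 : IsClosed {p : H × ℝ × ℝ | (⟪c, p.1⟫ * Real.cos p.2.1 +
          ⟪c, qI * p.1⟫ * Real.sin p.2.1) ^ 2 ≤ s * ‖p.1‖ ^ 2} :=
        isClosed_le (by fun_prop) (by fun_prop)
      have c2 : IsClosed {p : H × ℝ × ℝ | (⟪c, qI * p.1⟫ * Real.cos p.2.1 -
          ⟪c, p.1⟫ * Real.sin p.2.1) ^ 2 ≤ s * ‖p.1‖ ^ 2} :=
        isClosed_le (by fun_prop) (by fun_prop)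
      exact c1.inter c2
    have m4 : MeasurableSet {p : H × ℝ × ℝ | p.2.2 ∈ Arc2 c s p.1} := by
      apply IsClosed.measurableSet
      apply IsClosed.inter
      · exact isClosed_Icc.preimage (by fun_prop)
      have c1 : IsClosed {p : H × ℝ × ℝ | (⟪c, qJ * p.1⟫ * Real.cos p.2.2 +
          ⟪c, qI * qJ * p.1⟫ * Real.sin p.2.2) ^ 2 ≤ s * ‖p.1‖ ^ 2} :=
        isClosed_le (by fun_prop) (by fun_prop)
      have c2 : IsClosed {p : H × ℝ × ℝ | (⟪c, qI * qJ * p.1⟫ * Real.cos p.2.2 -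
          ⟪c, qJ * p.1⟫ * Real.sin p.2.2) ^ 2 ≤ s * ‖p.1‖ ^ 2} :=
        isClosed_le (by fun_prop) (by fun_prop)
      exact c1.inter c2
    exact m1.inter (m2.inter (m3.inter m4))
  have hsec : ∀ y : H, volume (Prod.mk y ⁻¹' S) ≤
      (Y ∩ ball (0 : H) 1).indicator (fun _ => ENNReal.ofReal (π ^ 2 / 9 * m)) y := by
    intro y
    by_cases h1 : y ∈ Y ∩ ball (0 : H) 1
    · rw [Set.indicator_of_mem h1]
      by_cases h2 : y = 0
      · have : Prod.mk y ⁻¹' S = ∅ := by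
          rw [Set.eq_empty_iff_forall_notMem]
          rintro q ⟨-, h3, -⟩
          exact h3 h2
        rw [this, measure_empty]
        exact zero_le
      · have : Prod.mk y ⁻¹' S ⊆ Arc1 c s y ×ˢ Arc2 c s y := by
          rintro q ⟨-, -, h3, h4⟩
          exact ⟨h3, h4⟩
        refine (measure_mono this).trans ?_
        rw [Measure.volume_eq_prod, Measure.prod_prod]
        exact arcs_le hc hκ hκ0 hκ1 hm y h2
    · rw [Set.indicator_of_notMem h1]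
      have : Prod.mk y ⁻¹' S = ∅ := by
        rw [Set.eq_empty_iff_forall_notMem]
        rintro q ⟨h3, -⟩
        exact h1 h3
      rw [this, measure_empty]
  calc volume (BadSet C) ≤ volume (S ∪ ({(0 : H)} ×ˢ Set.univ)) := measure_mono hsub
    _ ≤ volume S + volume (({(0 : H)} : Set H) ×ˢ (Set.univ : Set (ℝ × ℝ))) := measure_union_le _ _
    _ = volume S := by rw [hnull, add_zero]
    _ = ∫⁻ y, volume (Prod.mk y ⁻¹' S) := by
        rw [Measure.volume_eq_prod, Measure.prod_apply hSm]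
    _ ≤ ∫⁻ y, (Y ∩ ball (0 : H) 1).indicator (fun _ => ENNReal.ofReal (π ^ 2 / 9 * m)) y :=
        lintegral_mono hsec
    _ = ENNReal.ofReal (π ^ 2 / 9 * m) * volume (Y ∩ ball (0 : H) 1) := by
        rw [lintegral_indicator (hYm.inter measurableSet_ball), lintegral_const,
          Measure.restrict_apply MeasurableSet.univ, Set.univ_inter]
    _ ≤ ENNReal.ofReal (π ^ 2 / 9 * m) * (ENNReal.ofReal P * volume (ball (0 : H) 1)) := by
        gcongr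
    _ = ENNReal.ofReal (π ^ 2 / 9 * m * P) * volume (ball (0 : H) 1) := by
        have := hm.nonneg hκ0 hκ1
        rw [ENNReal.ofReal_mul (p := π ^ 2 / 9 * m) (by positivity), mul_assoc]

end Pool.Agent.TH378.CW
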