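import Pool.Agent.TH378.CW.Num1

/-!
# Numerical inequalities, part 2
-/

set_option autoImplicit false

namespace Pool.Agent.TH378.CW

open MeasureTheory Metric
open scoped Real RealInnerProductSpace

theorem pi_sq_lt : π ^ 2 < 98697 / 10000 := by
  have h1 := Real.pi_lt_d4
  have h2 := Real.pi_pos
  nlinarith

/-- The Heron expression. -/
def her (a b c : ℝ) : ℝ := 2 * (a * b + a * c + b * c) - a ^ 2 - b ^ 2 - c ^ 2

theorem her_ge {a b c δ : ℝ} (ha : a ≤ 1) (hb : b ≤ 1) (hc : c ≤ 1)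
    (h : 3 - δ ≤ a + b + c) (hδ : δ ≤ 1) : (1 - δ) * (3 + δ) ≤ her a b c := by
  unfold her
  have h1 : 0 ≤ (1 - a) * (1 - b) := mul_nonneg (by linarith) (by linarith)
  have h2 : 0 ≤ (1 - a) * (1 - c) := mul_nonneg (by linarith) (by linarith)
  have h3 : 0 ≤ (1 - b) * (1 - c) := mul_nonneg (by linarith) (by linarith)
  -- with x = 1 - a etc, σ = x + y + z ≤ δ ≤ 1 : F = 3 - 2σ - σ² + 4 e₂
  have e : 2 * (a * b + a * c + b * c) - a ^ 2 - b ^ 2 - c ^ 2 =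
      3 - 2 * (3 - a - b - c) - (3 - a - b - c) ^ 2 +
        4 * ((1 - a) * (1 - b) + (1 - a) * (1 - c) + (1 - b) * (1 - c)) := by ring
  rw [e]
  have h4 : 0 ≤ 3 - a - b - c := by linarith
  have h5 : 3 - a - b - c ≤ δ := by linarith
  nlinarith

theorem her_prod {a b c : ℝ} (ha0 : 0 ≤ a) (hb0 : 0 ≤ b) (hc0 : 0 ≤ c) (ha : a ≤ 1) (hb : b ≤ 1) (hc : c ≤ 1)
    (h : 2 ≤ a + b + c) : 3 * (a * b * c) ≤ her a b c := by
  unfold her
  have h1 : 0 ≤ (1 - a) * (1 - b) := mul_nonneg (by linarith) (by linarith)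
  have h2 : 0 ≤ (1 - a) * (1 - c) := mul_nonneg (by linarith) (by linarith)
  have h3 : 0 ≤ (1 - b) * (1 - c) := mul_nonneg (by linarith) (by linarith)
  have h6 : 0 ≤ (1 - a) * (1 - b) * (1 - c) := mul_nonneg h1 (by linarith)
  have e : 2 * (a * b + a * c + b * c) - a ^ 2 - b ^ 2 - c ^ 2 - 3 * (a * b * c) =
      (3 - a - b - c) - (3 - a - b - c) ^ 2 +
        ((1 - a) * (1 - b) + (1 - a) * (1 - c) + (1 - b) * (1 - c)) +
        3 * ((1 - a) * (1 - b) * (1 - c)) := by ring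
  have h4 : 0 ≤ 3 - a - b - c := by linarith
  have h5 : 3 - a - b - c ≤ 1 := by linarith
  nlinarith

/-! ### thin inequalities -/

theorem thinC {W : ℝ} (hW : 0 < W) (h : W ≤ 4 / 10) :
    0 ≤ (1 + 1 / 2 * W) * (6 + W) * (2 + 3 * (1 - 3 / 10) * W) +
      2 * (1 - 1 / 2 * W) * (6 * (3 / 10) + W) - 4 * (6 * (3 / 10) + W) * (2 + 3 * (1 - 3 / 10) * W) := by
  nlinarith [mul_pos hW hW, mul_pos (mul_pos hW hW) hW]

theorem thinB1 {W : ℝ} (hW : 0 < W) :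
    0 ≤ (1 + 7 / 10 * W) * (6 + W) * (2 + 3 * (1 - 32 / 100) * W) +
      2 * (1 - 7 / 10 * W) * (6 * (32 / 100) + W) -
      4 * (6 * (32 / 100) + W) * (2 + 3 * (1 - 32 / 100) * W) := by
  nlinarith [mul_pos hW hW, mul_pos (mul_pos hW hW) hW, sq_nonneg (W - 35 / 100)]

theorem thinB2 {W : ℝ} (hW : 0 < W) :
    0 ≤ (1 + 85 / 100 * W) * (6 + W) * (2 + 3 * (1 - 33 / 100) * W) +
      2 * (1 - 85 / 100 * W) * (6 * (33 / 100) + W) -
      4 * (6 * (33 / 100) + W) * (2 + 3 * (1 - 33 / 100) * W) := by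
  nlinarith [mul_pos hW hW, mul_pos (mul_pos hW hW) hW, sq_nonneg (W - 12 / 100)]

theorem thinB3 {W : ℝ} (hW : 0 < W) :
    0 ≤ (1 + 1 * W) * (6 + W) * (2 + 3 * (1 - 1 / 3) * W) +
      2 * (1 - 1 * W) * (6 * (1 / 3) + W) -
      4 * (6 * (1 / 3) + W) * (2 + 3 * (1 - 1 / 3) * W) := by
  nlinarith [mul_pos hW hW, mul_pos (mul_pos hW hW) hW]

theorem thinB4 {W s : ℝ} (hW : 0 < W) (hW1 : W ≤ 1) (hs : 1 / 3 ≤ s) (hs1 : s ≤ 335 / 1000)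
    (h : 16 * (s - 1 / 3) ≤ (1 - s) * W ^ 2) :
    0 ≤ (1 + 1 * W) * (6 + W) * (2 + 3 * (1 - s) * W) +
      2 * (1 - 1 * W) * (6 * s + W) -
      4 * (6 * s + W) * (2 + 3 * (1 - s) * W) := by
  -- s = (1 + σ) / 3
  obtain ⟨σ, hσ⟩ : ∃ σ : ℝ, s = (1 + σ) / 3 := ⟨3 * s - 1, by ring⟩
  subst hσ
  have h1 : 0 ≤ σ := by linarith
  have h2 : σ ≤ 5 / 1000 := by linarith
  have h3 : 8 * σ ≤ W ^ 2 := by
    have : 0 ≤ σ * W ^ 2 := by positivity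
    nlinarith
  have e : (1 + 1 * W) * (6 + W) * (2 + 3 * (1 - (1 + σ) / 3) * W) +
      2 * (1 - 1 * W) * (6 * ((1 + σ) / 3) + W) -
      4 * (6 * ((1 + σ) / 3) + W) * (2 + 3 * (1 - (1 + σ) / 3) * W) =
      6 * W ^ 2 + 2 * W ^ 3 - σ * (12 + 18 * W + 3 * W ^ 2 + W ^ 3) + 8 * σ ^ 2 * W := by ring
  rw [e]
  have h4 : 12 + 18 * W + 3 * W ^ 2 + W ^ 3 ≤ 48 := by nlinarith [mul_pos hW hW]
  have h5 : σ * (12 + 18 * W + 3 * W ^ 2 + W ^ 3) ≤ σ * 48 := by gcongr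
  have h6 : 0 ≤ W ^ 3 := by positivity
  have h7 : 0 ≤ 8 * σ ^ 2 * W := by positivity
  linarith

end Pool.Agent.TH378.CW
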