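import Pool.Agent.TH378.CW.Frame
import Pool.Agent.TH378.CW.Num2

/-!
# The circumradius of a contact triangle
-/

set_option autoImplicit false
set_option linter.unusedSimpArgs false

namespace Pool.Agent.TH378.CW

open MeasureTheory Metric
open scoped Real RealInnerProductSpace

theorem finrank_H : Module.finrank ℝ H = 4 := Quaternion.finrank_eq_four

theorem gram_zero {z n : H} (hz : z ≠ 0) (hn : n ≠ 0) (hnz : ⟪n, z⟫ = 0) (v : Fin 3 → H)
    (hvz : ∀ i, ⟪v i, z⟫ = 0) (hvn : ∀ i, ⟪v i, n⟫ = 0) :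
    Matrix.det (Matrix.of fun i j => ⟪v i, v j⟫) = 0 := by
  have hdep : ¬ LinearIndependent ℝ ![z, n, v 0, v 1, v 2] := by
    intro h
    have := h.fintype_card_le_finrank
    rw [finrank_H] at this
    simp at this
  rw [Fintype.not_linearIndependent_iff] at hdep
  obtain ⟨g, hg, i0, hi0⟩ := hdep
  simp only [Fin.sum_univ_five, Matrix.cons_val_zero, Matrix.cons_val_one, Matrix.cons_val] at hg
  have hzz : 0 < ⟪z, z⟫ := real_inner_self_pos.2 hz
  have hnn : 0 < ⟪n, n⟫ := real_inner_self_pos.2 hn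
  have hzn : ⟪z, n⟫ = 0 := by rw [real_inner_comm]; exact hnz
  have g0 : g 0 = 0 := by
    have := congrArg (fun x => ⟪x, z⟫) hg
    simp only [inner_add_left, real_inner_smul_left, hvz, hnz, mul_zero, add_zero,
      inner_zero_left] at this
    exact (mul_eq_zero.1 this).resolve_right hzz.ne'
  have g1 : g 1 = 0 := by
    have := congrArg (fun x => ⟪x, n⟫) hg
    simp only [inner_add_left, real_inner_smul_left, hvn, hzn, mul_zero, add_zero, zero_add,
      inner_zero_left] at this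
    exact (mul_eq_zero.1 this).resolve_right hnn.ne'
  have hsum : g 2 • v 0 + g 3 • v 1 + g 4 • v 2 = 0 := by
    rw [g0, g1, zero_smul, zero_smul, zero_add, zero_add] at hg
    exact hg
  rw [← Matrix.exists_mulVec_eq_zero_iff]
  refine ⟨![g 2, g 3, g 4], ?_, ?_⟩
  · intro h
    apply hi0
    have h2 : g 2 = 0 := congrFun h 0
    have h3 : g 3 = 0 := congrFun h 1
    have h4 : g 4 = 0 := congrFun h 2
    fin_cases i0
    · exact g0
    · exact g1
    · exact h2
    · exact h3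
    · exact h4
  · funext i
    simp only [Matrix.mulVec, dotProduct, Fin.sum_univ_three, Matrix.of_apply,
      Matrix.cons_val_zero, Matrix.cons_val_one, Matrix.cons_val, Pi.zero_apply]
    have := congrArg (fun x => ⟪v i, x⟫) hsum
    simp only [inner_add_right, real_inner_smul_right, inner_zero_right] at this
    linarith

/-- The circumradius identity. -/
theorem circ {z n : H} {s D : ℝ} (hz : z ≠ 0) (hs : ‖z‖ ^ 2 = 1 - s) (hn : ‖n‖ = 1)
    (hnz : ⟪n, z⟫ = 0) (a : Fin 3 → H) (ha : ∀ i, ‖a i‖ = 1 ∧ ⟪a i, z⟫ = ‖z‖ ^ 2)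
    (hD : ∀ i, ⟪a i, n⟫ = D) :
    (s - D ^ 2) * her (‖a 0 - a 1‖ ^ 2) (‖a 0 - a 2‖ ^ 2) (‖a 1 - a 2‖ ^ 2) =
      ‖a 0 - a 1‖ ^ 2 * ‖a 0 - a 2‖ ^ 2 * ‖a 1 - a 2‖ ^ 2 := by
  have hn0 : n ≠ 0 := by
    intro h; rw [h, norm_zero] at hn; exact zero_ne_one hn
  have hnn : ⟪n, n⟫ = 1 := by rw [real_inner_self_eq_norm_sq, hn, one_pow]
  have hzz : ⟪z, z⟫ = 1 - s := by rw [real_inner_self_eq_norm_sq, hs]
  have hzn : ⟪z, n⟫ = 0 := by rw [real_inner_comm]; exact hnz
  have hza : ∀ i, ⟪z, a i⟫ = 1 - s := by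
    intro i; rw [real_inner_comm, (ha i).2, hs]
  have hna : ∀ i, ⟪n, a i⟫ = D := by intro i; rw [real_inner_comm, hD i]
  set v : Fin 3 → H := fun i => a i - z - D • n with hv
  have hvz : ∀ i, ⟪v i, z⟫ = 0 := by
    intro i
    simp only [hv, inner_sub_left, real_inner_smul_left, hnz, (ha i).2, hzz, hs]
    ring
  have hvn : ∀ i, ⟪v i, n⟫ = 0 := by
    intro i
    simp only [hv, inner_sub_left, real_inner_smul_left, hnn, hzn, hD i]
    ring
  have hg := gram_zero hz hn0 hnz v hvz hvn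
  have hin : ∀ i j, ⟪v i, v j⟫ = ⟪a i, a j⟫ - (1 - s) - D ^ 2 := by
    intro i j
    simp only [hv, inner_sub_left, inner_sub_right, real_inner_smul_left, real_inner_smul_right,
      hnn, hzn, hnz, hzz, hD, (ha i).2, (ha j).2, hza, hna, hs]
    ring
  have haa : ∀ i, ⟪a i, a i⟫ = 1 := by
    intro i; rw [real_inner_self_eq_norm_sq, (ha i).1, one_pow]
  have hE : ∀ i j, ‖a i - a j‖ ^ 2 = 2 - 2 * ⟪a i, a j⟫ := by
    intro i j
    rw [norm_sub_sq_real, (ha i).1, (ha j).1]; ring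
  rw [Matrix.det_fin_three] at hg
  simp only [Matrix.of_apply, hin, haa] at hg
  rw [real_inner_comm (a 0) (a 1), real_inner_comm (a 0) (a 2), real_inner_comm (a 1) (a 2)] at hg
  rw [hE, hE, hE]
  unfold her
  linear_combination 4 * hg

end Pool.Agent.TH378.CW
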