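import Pool.Agent.TH378.CW.Base

/-!
# The frames `fr y φ ψ`
-/

set_option autoImplicit false
set_option linter.unusedSimpArgs false

namespace Pool.Agent.TH378.CW

open MeasureTheory Metric
open scoped Real RealInnerProductSpace

theorem U_re (t : ℝ) : (U t).re = Real.cos t := rfl
theorem U_imI (t : ℝ) : (U t).imI = Real.sin t := rfl
theorem U_imJ (t : ℝ) : (U t).imJ = 0 := rfl
theorem U_imK (t : ℝ) : (U t).imK = 0 := rfl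
theorem qI_re : (qI).re = 0 := rfl
theorem qI_imI : (qI).imI = 1 := rfl
theorem qI_imJ : (qI).imJ = 0 := rfl
theorem qI_imK : (qI).imK = 0 := rfl
theorem qJ_re : (qJ).re = 0 := rfl
theorem qJ_imI : (qJ).imI = 0 := rfl
theorem qJ_imJ : (qJ).imJ = 1 := rfl
theorem qJ_imK : (qJ).imK = 0 := rfl

theorem inner_H (a b : H) :
    ⟪a, b⟫ = a.re * b.re + a.imI * b.imI + a.imJ * b.imJ + a.imK * b.imK := by
  rw [Quaternion.inner_def]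
  simp [Quaternion.re_mul]

theorem norm_sq_H (a : H) :
    ‖a‖ ^ 2 = a.re ^ 2 + a.imI ^ 2 + a.imJ ^ 2 + a.imK ^ 2 := by
  rw [← real_inner_self_eq_norm_sq, inner_H]; ring

theorem norm_U (t : ℝ) : ‖U t‖ = 1 := by
  have h : ‖U t‖ ^ 2 = 1 := by
    rw [norm_sq_H]
    simp only [U_re, U_imI, U_imJ, U_imK]
    linear_combination Real.sin_sq_add_cos_sq t
  nlinarith [norm_nonneg (U t)]

theorem norm_qJ : ‖qJ‖ = 1 := by
  have h : ‖qJ‖ ^ 2 = 1 := by rw [norm_sq_H]; simp only [qJ_re, qJ_imI, qJ_imJ, qJ_imK]; norm_num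
  nlinarith [norm_nonneg qJ]

theorem norm_qI : ‖qI‖ = 1 := by
  have h : ‖qI‖ ^ 2 = 1 := by rw [norm_sq_H]; simp only [qI_re, qI_imI, qI_imJ, qI_imK]; norm_num
  nlinarith [norm_nonneg qI]

/-- The coefficients of the frame. -/
noncomputable def gq (φ ψ : ℝ) : Fin 4 → H :=
  ![U φ, U (φ + π / 2), U ψ * qJ, U (ψ + π / 2) * qJ]

theorem fr_eq (y : H) (φ ψ : ℝ) (i : Fin 4) : fr y φ ψ i = gq φ ψ i * y := by
  fin_cases i <;> simp [fr, gq]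

theorem norm_gq (φ ψ : ℝ) (i : Fin 4) : ‖gq φ ψ i‖ = 1 := by
  fin_cases i <;> simp [gq, norm_U, norm_qJ]

theorem inner_gq_aux (φ ψ : ℝ) :
    ⟪gq φ ψ 0, gq φ ψ 1⟫ = 0 ∧ ⟪gq φ ψ 0, gq φ ψ 2⟫ = 0 ∧ ⟪gq φ ψ 0, gq φ ψ 3⟫ = 0 ∧
    ⟪gq φ ψ 1, gq φ ψ 2⟫ = 0 ∧ ⟪gq φ ψ 1, gq φ ψ 3⟫ = 0 ∧ ⟪gq φ ψ 2, gq φ ψ 3⟫ = 0 := by
  simp only [gq, Matrix.cons_val_zero, Matrix.cons_val_one, Matrix.cons_val]
  simp only [inner_H, Quaternion.re_mul, Quaternion.imI_mul, Quaternion.imJ_mul,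
    Quaternion.imK_mul, U_re, U_imI, U_imJ, U_imK, qJ_re, qJ_imI, qJ_imJ, qJ_imK,
    Real.cos_add_pi_div_two, Real.sin_add_pi_div_two]
  refine ⟨?_, ?_, ?_, ?_, ?_, ?_⟩ <;> ring

theorem inner_gq (φ ψ : ℝ) (i j : Fin 4) (h : i ≠ j) : ⟪gq φ ψ i, gq φ ψ j⟫ = 0 := by
  obtain ⟨h1, h2, h3, h4, h5, h6⟩ := inner_gq_aux φ ψ
  fin_cases i <;> fin_cases j
  all_goals first
    | exact absurd rfl h
    | exact h1
    | exact h2
    | exact h3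
    | exact h4
    | exact h5
    | exact h6
    | (rw [real_inner_comm]; exact h1)
    | (rw [real_inner_comm]; exact h2)
    | (rw [real_inner_comm]; exact h3)
    | (rw [real_inner_comm]; exact h4)
    | (rw [real_inner_comm]; exact h5)
    | (rw [real_inner_comm]; exact h6)

theorem inner_mul_right_H (a b y : H) : ⟪a * y, b * y⟫ = ‖y‖ ^ 2 * ⟪a, b⟫ := by
  rw [norm_sq_H, inner_H, inner_H]
  simp only [Quaternion.re_mul, Quaternion.imI_mul, Quaternion.imJ_mul, Quaternion.imK_mul]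
  ring

theorem norm_fr (y : H) (φ ψ : ℝ) (i : Fin 4) : ‖fr y φ ψ i‖ = ‖y‖ := by
  rw [fr_eq, norm_mul, norm_gq, one_mul]

theorem inner_fr (y : H) (φ ψ : ℝ) (i j : Fin 4) (h : i ≠ j) :
    ⟪fr y φ ψ i, fr y φ ψ j⟫ = 0 := by
  rw [fr_eq, fr_eq, inner_mul_right_H, inner_gq _ _ _ _ h, mul_zero]

theorem orthonormal_fr (y : H) (hy : ‖y‖ = 1) (φ ψ : ℝ) : Orthonormal ℝ (fr y φ ψ) := by
  constructor
  · intro i; rw [norm_fr, hy]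
  · intro i j h; exact inner_fr y φ ψ i j h

theorem fr_smul (y : H) (r : ℝ) (φ ψ : ℝ) (i : Fin 4) : fr (r • y) φ ψ i = r • fr y φ ψ i := by
  rw [fr_eq, fr_eq, mul_smul_comm]

theorem fr_zero (c y : H) (φ ψ : ℝ) :
    ⟪c, fr y φ ψ 0⟫ = ⟪c, y⟫ * Real.cos φ + ⟪c, qI * y⟫ * Real.sin φ := by
  simp only [fr, Matrix.cons_val_zero]
  simp only [inner_H, Quaternion.re_mul, Quaternion.imI_mul, Quaternion.imJ_mul,
    Quaternion.imK_mul, U_re, U_imI, U_imJ, U_imK, qI_re, qI_imI, qI_imJ, qI_imK]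
  ring

theorem fr_one (c y : H) (φ ψ : ℝ) :
    ⟪c, fr y φ ψ 1⟫ = ⟪c, qI * y⟫ * Real.cos φ - ⟪c, y⟫ * Real.sin φ := by
  simp only [fr, Matrix.cons_val_one]
  simp only [inner_H, Quaternion.re_mul, Quaternion.imI_mul, Quaternion.imJ_mul,
    Quaternion.imK_mul, U_re, U_imI, U_imJ, U_imK, qI_re, qI_imI, qI_imJ, qI_imK,
    Real.cos_add_pi_div_two, Real.sin_add_pi_div_two]
  simp only [inner_H, Quaternion.re_mul, Quaternion.imI_mul, Quaternion.imJ_mul,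
    Quaternion.imK_mul, U_re, U_imI, U_imJ, U_imK, qI_re, qI_imI, qI_imJ, qI_imK,
    Real.cos_add_pi_div_two, Real.sin_add_pi_div_two, Matrix.cons_val_zero]
  ring

theorem fr_two (c y : H) (φ ψ : ℝ) :
    ⟪c, fr y φ ψ 2⟫ = ⟪c, qJ * y⟫ * Real.cos ψ + ⟪c, qI * qJ * y⟫ * Real.sin ψ := by
  simp only [fr, Matrix.cons_val]
  simp only [inner_H, Quaternion.re_mul, Quaternion.imI_mul, Quaternion.imJ_mul,
    Quaternion.imK_mul, U_re, U_imI, U_imJ, U_imK, qI_re, qI_imI, qI_imJ, qI_imK,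
    qJ_re, qJ_imI, qJ_imJ, qJ_imK]
  ring

theorem fr_three (c y : H) (φ ψ : ℝ) :
    ⟪c, fr y φ ψ 3⟫ = ⟪c, qI * qJ * y⟫ * Real.cos ψ - ⟪c, qJ * y⟫ * Real.sin ψ := by
  simp only [fr, Matrix.cons_val]
  simp only [inner_H, Quaternion.re_mul, Quaternion.imI_mul, Quaternion.imJ_mul,
    Quaternion.imK_mul, U_re, U_imI, U_imJ, U_imK, qI_re, qI_imI, qI_imJ, qI_imK,
    qJ_re, qJ_imI, qJ_imJ, qJ_imK, Real.cos_add_pi_div_two, Real.sin_add_pi_div_two]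
  ring

theorem pr_compl (c y : H) :
    ⟪c, qJ * y⟫ ^ 2 + ⟪c, qI * qJ * y⟫ ^ 2 = ‖c‖ ^ 2 * ‖y‖ ^ 2 - pr c y := by
  simp only [pr, norm_sq_H, inner_H, Quaternion.re_mul, Quaternion.imI_mul, Quaternion.imJ_mul,
    Quaternion.imK_mul, qI_re, qI_imI, qI_imJ, qI_imK, qJ_re, qJ_imI, qJ_imJ, qJ_imK]
  ring

theorem fr_sum01 (c y : H) (φ ψ : ℝ) :
    ⟪c, fr y φ ψ 0⟫ ^ 2 + ⟪c, fr y φ ψ 1⟫ ^ 2 = pr c y := by
  rw [fr_zero, fr_one, pr]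
  have := Real.sin_sq_add_cos_sq φ
  linear_combination (⟪c, y⟫ ^ 2 + ⟪c, qI * y⟫ ^ 2) * this

theorem fr_sum23 (c y : H) (φ ψ : ℝ) :
    ⟪c, fr y φ ψ 2⟫ ^ 2 + ⟪c, fr y φ ψ 3⟫ ^ 2 = ‖c‖ ^ 2 * ‖y‖ ^ 2 - pr c y := by
  rw [fr_two, fr_three, ← pr_compl]
  have := Real.sin_sq_add_cos_sq ψ
  linear_combination (⟪c, qJ * y⟫ ^ 2 + ⟪c, qI * qJ * y⟫ ^ 2) * this

theorem pr_nonneg (c y : H) : 0 ≤ pr c y := by unfold pr; positivity

theorem pr_le (c y : H) : pr c y ≤ ‖c‖ ^ 2 * ‖y‖ ^ 2 := by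
  have := pr_compl c y
  nlinarith [sq_nonneg ⟪c, qJ * y⟫, sq_nonneg ⟪c, qI * qJ * y⟫]

end Pool.Agent.TH378.CW
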