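import Pool.Agent.TH378.CW.Forms
import Pool.Agent.TH209.CW.Hopf

/-!
# The Hopf shells of a cone contained in a cap or in a thin slab of a cap
-/

set_option autoImplicit false

namespace Pool.Agent.TH378.CW

open MeasureTheory Metric
open scoped Real RealInnerProductSpace

/-- The shell of base points. -/
def Shell (c w : H) (A B : ℝ) : Set H :=
  {y | (A + B - 2) * ‖y‖ ^ 2 ≤ A * pr c y + B * pr w y ∧ A * pr c y + B * pr w y ≤ 2 * ‖y‖ ^ 2}

theorem continuous_pr (c : H) : Continuous (pr c) := by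
  unfold pr; fun_prop

theorem measurableSet_Shell (c w : H) (A B : ℝ) : MeasurableSet (Shell c w A B) := by
  apply IsClosed.measurableSet
  have h1 := continuous_pr c
  have h2 := continuous_pr w
  have c1 : IsClosed {y : H | (A + B - 2) * ‖y‖ ^ 2 ≤ A * pr c y + B * pr w y} :=
    isClosed_le (by fun_prop) (by fun_prop)
  have c2 : IsClosed {y : H | A * pr c y + B * pr w y ≤ 2 * ‖y‖ ^ 2} :=
    isClosed_le (by fun_prop) (by fun_prop)
  exact c1.inter c2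

theorem volume_Shell (c w : H) (hc : ‖c‖ = 1) (hw : ‖w‖ = 1) (A B r : ℝ) (hB : 0 ≤ B)
    (hAB : B < A) (hr : 4 - A - B ≤ r * (A - B)) :
    volume (Shell c w A B ∩ ball (0 : H) 1) ≤ ENNReal.ofReal r * volume (ball (0 : H) 1) := by
  rcases le_or_gt (A + B) 4 with h4 | h4
  · have h := Pool.Agent.TH209.CW.hopf c w hc hw A B hB hAB h4
    have e : Shell c w A B ∩ ball (0 : H) 1 =
        {y ∈ ball (0 : H) 1 | (A + B - 2) * ‖y‖ ^ 2 ≤ A * pr c y + B * pr w y ∧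
        A * pr c y + B * pr w y ≤ 2 * ‖y‖ ^ 2} := by
      ext y
      simp only [Shell, Set.mem_inter_iff, Set.mem_ofPred_eq]
      tauto
    rw [e]
    refine h.trans ?_
    gcongr
    rw [div_le_iff₀ (by linarith)]
    exact hr
  · have : Shell c w A B ∩ ball (0 : H) 1 ⊆ {0} := by
      rintro y ⟨⟨h1, h2⟩, -⟩
      by_contra hy
      have : 0 < ‖y‖ ^ 2 := by have := norm_pos_iff.2 hy; positivity
      nlinarith
    have h0 : volume (Shell c w A B ∩ ball (0 : H) 1) = 0 := by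
      refine measure_mono_null this ?_
      simp
    rw [h0]
    exact zero_le

/-- The base points of the bad frames lie in a shell. -/
theorem mem_Shell_of_bad {C : Set H} {c w : H} (hc : ‖c‖ = 1) (hw : ‖w‖ = 1) {A B : ℝ}
    (h : ∀ u ∈ C, ‖u‖ = 1 → ∀ e : H, ⟪u, e⟫ = 0 → A * ⟪c, e⟫ ^ 2 + B * ⟪w, e⟫ ^ 2 ≤ ‖e‖ ^ 2)
    (y : H) (φ ψ : ℝ) (hb : Bad C (fr y φ ψ)) : y ∈ Shell c w A B := by
  have key : ∀ i, A * ⟪c, fr y φ ψ i⟫ ^ 2 + B * ⟪w, fr y φ ψ i⟫ ^ 2 ≤ ‖y‖ ^ 2 := by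
    intro i
    obtain ⟨u, hu, hu1, hu2⟩ := hb i
    have := h u hu hu1 _ hu2
    rwa [norm_fr] at this
  have k0 := key 0
  have k1 := key 1
  have k2 := key 2
  have k3 := key 3
  have s1 := fr_sum01 c y φ ψ
  have s2 := fr_sum23 c y φ ψ
  have s3 := fr_sum01 w y φ ψ
  have s4 := fr_sum23 w y φ ψ
  rw [hc, one_pow, one_mul] at s2
  rw [hw, one_pow, one_mul] at s4
  constructor
  · have e : A * (‖y‖ ^ 2 - pr c y) + B * (‖y‖ ^ 2 - pr w y) ≤ 2 * ‖y‖ ^ 2 := by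
      rw [← s2, ← s4]; linarith
    linarith
  · rw [← s1, ← s3]; linarith

/-- Cap bound. -/
theorem cap_shell {C : Set H} {c : H} (hc : ‖c‖ = 1) {s κ : ℝ} (hκ : κ = 4 * s - 1)
    (hκ0 : 0 ≤ κ) (hcap : ∀ u ∈ C, ‖u‖ = 1 → 1 - s ≤ ⟪u, c⟫ ^ 2) :
    ∃ Y : Set H, MeasurableSet Y ∧ (∀ y φ ψ, Bad C (fr y φ ψ) → y ∈ Y) ∧
      volume (Y ∩ ball (0 : H) 1) ≤ ENNReal.ofReal κ * volume (ball (0 : H) 1) := by
  have hs : 0 < s := by linarith
  refine ⟨Shell c c (1 / s) 0, measurableSet_Shell _ _ _ _, ?_, ?_⟩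
  · intro y φ ψ hb
    refine mem_Shell_of_bad hc hc ?_ y φ ψ hb
    intro u hu hu1 e he
    have h := cap_dual hc hu1 (hcap u hu hu1) he
    rw [zero_mul, add_zero, div_mul_eq_mul_div, one_mul, div_le_iff₀ hs]
    linarith
  · apply volume_Shell c c hc hc _ _ _ le_rfl (by positivity)
    rw [hκ]; field_simp; linarith

/-- Thin bound. -/
theorem thin_shell {C : Set H} {c n : H} (hc : ‖c‖ = 1) (hn : ‖n‖ = 1) (hcn : ⟪c, n⟫ = 0)
    {s tp tm W r : ℝ} (hs0 : 0 < s) (hs1 : s < 1) (hW : W = tp + tm) (hW0 : 0 < W)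
    (htp : 0 ≤ tp) (htm : 0 ≤ tm) (hcap : ∀ u ∈ C, ‖u‖ = 1 → 1 - s ≤ ⟪u, c⟫ ^ 2)
    (hT : ∀ u ∈ C, -tm * ⟪u, c⟫ ≤ ⟪u, n⟫ ∧ ⟪u, n⟫ ≤ tp * ⟪u, c⟫) (hr0 : 0 ≤ r) (hr1 : r ≤ 1)
    (hr : 4 ≤ (1 + r) * ((1 + W / 6) / (W / 6 + s)) + (1 - r) * (2 / (2 + 3 * (1 - s) * W))) :
    ∃ Y : Set H, MeasurableSet Y ∧ (∀ y φ ψ, Bad C (fr y φ ψ) → y ∈ Y) ∧
      volume (Y ∩ ball (0 : H) 1) ≤ ENNReal.ofReal r * volume (ball (0 : H) 1) := by
  set ν := 1 - s with hν
  have hν0 : 0 < ν := by rw [hν]; linarith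
  set b := 2 / (3 * W) with hb
  have hb0 : 0 < b := by positivity
  have hbW : b * W = 2 / 3 := by rw [hb]; field_simp
  obtain ⟨ηp, ηm, p, q, h1, h2, hpq, hprod, hbm, hap, hid⟩ :=
    diag (a := 1 + b * (tp * tm)) (b := b) (d := b * (tp - tm)) (by positivity) hb0
  have hcc : ⟪c, c⟫ = 1 := by rw [real_inner_self_eq_norm_sq, hc, one_pow]
  have hnn : ⟪n, n⟫ = 1 := by rw [real_inner_self_eq_norm_sq, hn, one_pow]
  have hnc : ⟪n, c⟫ = 0 := by rw [real_inner_comm]; exact hcn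
  set c' : H := p • c + q • n with hc'
  set w' : H := -q • c + p • n with hw'
  have nc' : ‖c'‖ = 1 := by
    have : ‖c'‖ ^ 2 = 1 := by
      rw [← real_inner_self_eq_norm_sq, hc']
      simp only [inner_add_left, inner_add_right, real_inner_smul_left, real_inner_smul_right,
        hcc, hnn, hcn, hnc]
      linarith
    nlinarith [norm_nonneg c']
  have nw' : ‖w'‖ = 1 := by
    have : ‖w'‖ ^ 2 = 1 := by
      rw [← real_inner_self_eq_norm_sq, hw']
      simp only [inner_add_left, inner_add_right, real_inner_smul_left, real_inner_smul_right,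
        hcc, hnn, hcn, hnc]
      linarith
    nlinarith [norm_nonneg w']
  have ncw' : ⟪c', w'⟫ = 0 := by
    rw [hc', hw']
    simp only [inner_add_left, inner_add_right, real_inner_smul_left, real_inner_smul_right,
        hcc, hnn, hcn, hnc]
    ring
  have hap1 : 1 ≤ ηp := by
    refine le_trans ?_ hap
    have : 0 ≤ b * (tp * tm) := by positivity
    linarith
  have hνp : ν < ηp := by linarith
  -- upper bound for ηp
  have hprod' : ηp * ηm = b * (1 + W / 6) := by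
    rw [hprod]
    have : b * W ^ 2 = 2 / 3 * W := by rw [pow_two, ← mul_assoc, hbW]
    have e : (1 + b * (tp * tm)) * b + (b * (tp - tm)) ^ 2 / 4 = b * (1 + b * W ^ 2 / 4) := by
      rw [hW]; ring
    rw [e, this]; ring
  have hηp : ηp ≤ 1 + W / 6 := by
    have : b * ηp ≤ b * (1 + W / 6) := by
      rw [← hprod']; nlinarith
    exact le_of_mul_le_mul_left this hb0
  set A := ηp / (ηp - ν) with hA
  set B := ηm / (ηm + ν) with hB
  have dA : 0 < ηp - ν := by linarith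
  have dB : 0 < ηm + ν := by linarith
  have hA0 : (1 + W / 6) / (W / 6 + s) ≤ A := by
    rw [hA, div_le_div_iff₀ (by positivity) dA]
    have : W / 6 + s = (1 + W / 6) - ν := by rw [hν]; ring
    rw [this]
    have k2 : ν * ηp ≤ ν * (1 + W / 6) := mul_le_mul_of_nonneg_left hηp hν0.le
    linarith
  have hB0 : 2 / (2 + 3 * (1 - s) * W) ≤ B := by
    rw [hB, ← hν, div_le_div_iff₀ (by positivity) dB]
    have k : 2 ≤ 3 * W * ηm := by
      have := mul_le_mul_of_nonneg_left hbm (show 0 ≤ 3 * W by positivity)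
      linarith
    have k2 : ν * 2 ≤ ν * (3 * W * ηm) := mul_le_mul_of_nonneg_left k hν0.le
    linarith
  have hA1 : 1 < A := by rw [hA, lt_div_iff₀ dA]; linarith
  have hB1 : B < 1 := by rw [hB, div_lt_iff₀ dB]; linarith
  have hBn : 0 ≤ B := by rw [hB]; positivity
  refine ⟨Shell c' w' A B, measurableSet_Shell _ _ _ _, ?_, ?_⟩
  · intro y φ ψ hbad
    refine mem_Shell_of_bad nc' nw' ?_ y φ ψ hbad
    intro u hu hu1 e he
    have hu0 : u ≠ 0 := by
      intro h; rw [h, norm_zero] at hu1; exact zero_ne_one hu1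
    refine form_dual nc' nw' ncw' hν0 hνp h2.le hu0 ?_ he
    obtain ⟨t1, t2⟩ := hT u hu
    have hc1 := hcap u hu hu1
    have e1 : ⟪u, c'⟫ = p * ⟪u, c⟫ + q * ⟪u, n⟫ := by
      rw [hc', inner_add_right, real_inner_smul_right, real_inner_smul_right]
    have e2 : ⟪u, w'⟫ = -q * ⟪u, c⟫ + p * ⟪u, n⟫ := by
      rw [hw', inner_add_right, real_inner_smul_right, real_inner_smul_right]
    have hid' := hid ⟪u, c⟫ ⟪u, n⟫
    rw [← e1, ← e2] at hid'
    rw [hu1]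
    have : 0 ≤ b * ((tp * ⟪u, c⟫ - ⟪u, n⟫) * (⟪u, n⟫ + tm * ⟪u, c⟫)) := by
      apply mul_nonneg hb0.le
      apply mul_nonneg <;> linarith
    have e3 : (1 + b * (tp * tm)) * ⟪u, c⟫ ^ 2 + b * (tp - tm) * ⟪u, c⟫ * ⟪u, n⟫ - b * ⟪u, n⟫ ^ 2 =
        ⟪u, c⟫ ^ 2 + b * ((tp * ⟪u, c⟫ - ⟪u, n⟫) * (⟪u, n⟫ + tm * ⟪u, c⟫)) := by ring
    rw [e3] at hid'
    linarith
  · apply volume_Shell c' w' nc' nw' _ _ _ hBn (by linarith)
    have k1 : (1 + r) * ((1 + W / 6) / (W / 6 + s)) ≤ (1 + r) * A := by gcongr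
    have k2 : (1 - r) * (2 / (2 + 3 * (1 - s) * W)) ≤ (1 - r) * B := by
      apply mul_le_mul_of_nonneg_left hB0; linarith
    linarith

end Pool.Agent.TH378.CW
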