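import Pool.Agent.TH378.CW.Num1
import Pool.Agent.TH378.CW.BadMeas
import Pool.Agent.TH378.CW.Thin

/-!
# From shells and volumes to the bound for one cone
-/

set_option autoImplicit false

namespace Pool.Agent.TH378.CW

open MeasureTheory Metric
open scoped Real RealInnerProductSpace

theorem combine {C : Set H} {x v : ℝ} (h1 : volume (BadSet C) ≤ ENNReal.ofReal x *
    volume (ball (0 : H) 1)) (h2 : ENNReal.ofReal v ≤ 4 * volume (C ∩ ball (0 : H) 1))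
    (h : x ≤ 99 / 100 * v) :
    volume (BadSet C) ≤ ENNReal.ofReal (99 / 25) * volume (C ∩ ball (0 : H) 1) *
      volume (ball (0 : H) 1) := by
  refine h1.trans ?_
  gcongr
  calc ENNReal.ofReal x ≤ ENNReal.ofReal (99 / 100 * v) := ENNReal.ofReal_le_ofReal h
    _ = ENNReal.ofReal (99 / 100) * ENNReal.ofReal v := ENNReal.ofReal_mul (by norm_num)
    _ ≤ ENNReal.ofReal (99 / 100) * (4 * volume (C ∩ ball (0 : H) 1)) := by gcongr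
    _ = ENNReal.ofReal (99 / 100) * ENNReal.ofReal 4 * volume (C ∩ ball (0 : H) 1) := by
        rw [mul_assoc]; norm_num
    _ = ENNReal.ofReal (99 / 25) * volume (C ∩ ball (0 : H) 1) := by
        rw [← ENNReal.ofReal_mul (by norm_num)]; norm_num

/-- The bound from the cap alone. -/
theorem good_of_cap {C : Set H} {c : H} (hc : ‖c‖ = 1) {s κ m v : ℝ} (hs : 4 * s - 1 ≤ κ)
    (hκ0 : 0 ≤ κ) (hκ1 : κ ≤ 1 / 2) (hm : MOK κ m)
    (hcap : ∀ u ∈ C, ‖u‖ = 1 → 1 - s ≤ ⟪u, c⟫ ^ 2)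
    (hvol : ENNReal.ofReal v ≤ 4 * volume (C ∩ ball (0 : H) 1))
    (hfin : π ^ 2 / 9 * m * κ ≤ 99 / 100 * v) :
    volume (BadSet C) ≤ ENNReal.ofReal (99 / 25) * volume (C ∩ ball (0 : H) 1) *
      volume (ball (0 : H) 1) := by
  have hcap' : ∀ u ∈ C, ‖u‖ = 1 → 1 - (κ + 1) / 4 ≤ ⟪u, c⟫ ^ 2 := by
    intro u hu hu1
    have := hcap u hu hu1
    linarith
  obtain ⟨Y, hY1, hY2, hY3⟩ := cap_shell hc (s := (κ + 1) / 4) (κ := κ) (by ring) hκ0 hcap'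
  have := bad_meas hc (s := (κ + 1) / 4) (κ := κ) (by ring) hκ0 hκ1 hm hcap' Y
    (fun y _ φ ψ hb => hY2 y φ ψ hb) hY1 κ hY3
  exact combine this hvol hfin

/-- The bound from the slab. -/
theorem good_of_thin {C : Set H} {c n : H} (hc : ‖c‖ = 1) (hn : ‖n‖ = 1) (hcn : ⟪c, n⟫ = 0)
    {s κ m sT ρ c0 tp tm W : ℝ} (hs : 4 * s - 1 ≤ κ)
    (hκ0 : 0 ≤ κ) (hκ1 : κ ≤ 1 / 2) (hm : MOK κ m)
    (hcap : ∀ u ∈ C, ‖u‖ = 1 → 1 - s ≤ ⟪u, c⟫ ^ 2)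
    (hsT : s ≤ sT) (hsT0 : 0 < sT) (hsT1 : sT < 1) (hW : W = tp + tm) (hW0 : 0 < W)
    (htp : 0 ≤ tp) (htm : 0 ≤ tm) (hρ : 0 ≤ ρ)
    (hT : ∀ u ∈ C, -tm * ⟪u, c⟫ ≤ ⟪u, n⟫ ∧ ⟪u, n⟫ ≤ tp * ⟪u, c⟫)
    (hthin : ρ * W < κ → 0 ≤ (1 + ρ * W) * (6 + W) * (2 + 3 * (1 - sT) * W) +
      2 * (1 - ρ * W) * (6 * sT + W) - 4 * (6 * sT + W) * (2 + 3 * (1 - sT) * W))
    (hvol : ENNReal.ofReal (c0 * W) ≤ 4 * volume (C ∩ ball (0 : H) 1))
    (hfin : π ^ 2 / 9 * m * ρ ≤ 99 / 100 * c0) :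
    volume (BadSet C) ≤ ENNReal.ofReal (99 / 25) * volume (C ∩ ball (0 : H) 1) *
      volume (ball (0 : H) 1) := by
  have hm0 := hm.nonneg hκ0 hκ1
  have hcap' : ∀ u ∈ C, ‖u‖ = 1 → 1 - (κ + 1) / 4 ≤ ⟪u, c⟫ ^ 2 := by
    intro u hu hu1
    have := hcap u hu hu1
    linarith
  have hfin' : π ^ 2 / 9 * m * (ρ * W) ≤ 99 / 100 * (c0 * W) := by
    have := mul_le_mul_of_nonneg_right hfin hW0.le
    linarith
  rcases lt_or_ge (ρ * W) κ with hlt | hge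
  · obtain ⟨Y, hY1, hY2, hY3⟩ := thin_shell hc hn hcn hsT0 hsT1 hW hW0 htp htm
      (fun u hu hu1 => by have := hcap u hu hu1; linarith) hT (r := ρ * W) (by positivity)
      (by linarith) (thin_ineq hsT0 hsT1 hW0 (hthin hlt))
    have := bad_meas hc (s := (κ + 1) / 4) (κ := κ) (by ring) hκ0 hκ1 hm hcap' Y
      (fun y _ φ ψ hb => hY2 y φ ψ hb) hY1 (ρ * W) hY3
    exact combine this hvol hfin'
  · obtain ⟨Y, hY1, hY2, hY3⟩ := cap_shell hc (s := (κ + 1) / 4) (κ := κ) (by ring) hκ0 hcap'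
    have := bad_meas hc (s := (κ + 1) / 4) (κ := κ) (by ring) hκ0 hκ1 hm hcap' Y
      (fun y _ φ ψ hb => hY2 y φ ψ hb) hY1 κ hY3
    refine combine this hvol (le_trans ?_ hfin')
    gcongr

/-- Nothing is bad for small cones. -/
theorem good_of_small {C : Set H} {c : H} (hc : ‖c‖ = 1) {s : ℝ} (hs : s ≤ 1 / 4)
    (hcap : ∀ u ∈ C, ‖u‖ = 1 → 1 - s ≤ ⟪u, c⟫ ^ 2) :
    volume (BadSet C) ≤ ENNReal.ofReal (99 / 25) * volume (C ∩ ball (0 : H) 1) *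
      volume (ball (0 : H) 1) := by
  apply good_of_cap hc (s := s) (κ := 0) (m := 0) (v := 0) (by linarith) le_rfl (by norm_num) ?_
    hcap (by simp) (by simp)
  intro h h0 h1
  have : h = 0 := le_antisymm h1 h0
  subst this
  norm_num

end Pool.Agent.TH378.CW
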