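import Pool.Agent.TH378.CW.Num3

/-!
# Numerical inequalities, part 4: the final comparisons
-/

set_option autoImplicit false

namespace Pool.Agent.TH378.CW

open MeasureTheory Metric
open scoped Real RealInnerProductSpace

/-- The coefficient of the volume bound for triangles. -/
theorem tri_coeff {s s2 δ g q X X0 : ℝ} (hs : s ≤ s2) (hs2 : s2 ≤ 1) (hg0 : 0 ≤ g)
    (hg : g ^ 2 ≤ (1 - δ) * (3 + δ)) (hq0 : 0 ≤ q) (hq : 6 + δ ≤ q ^ 2)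
    (hX : X = 9 - δ - 2 * √(6 + δ)) (hX0 : X0 = 9 - δ - 2 * q) (hX00 : 0 ≤ X0) :
    1 / 6 * (1 - s2) * (g / 2) * (1 + X0 / 10 + 13 * X0 ^ 2 / 1680) ≤
      1 / 6 * (1 - s) * (√((1 - δ) * (3 + δ)) / 2) * (1 + X / 10 + 13 * X ^ 2 / 1680) := by
  have h1 : g ≤ √((1 - δ) * (3 + δ)) := Real.le_sqrt_of_sq_le hg
  have h2 : √(6 + δ) ≤ q := Real.sqrt_le_iff.2 ⟨hq0, hq⟩
  have h3 : X0 ≤ X := by linarith
  have h4 : 0 ≤ 1 - s2 := by linarith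
  have h5 : 0 ≤ 1 - s := by linarith
  gcongr

theorem finC {s : ℝ} (h0 : 1 / 4 < s) (h1 : s ≤ 3 / 10) :
    π ^ 2 / 9 * (4 * s - 1) ^ 2 * (1 / 2) ≤
      99 / 100 * (1 / 6 * (1 - s) * (√(4 * s - 1) / 2) * (1 + (0:ℝ) / 10 + 13 * 0 ^ 2 / 1680)) := by
  obtain ⟨r, hr⟩ : ∃ r : ℝ, r = √(4 * s - 1) := ⟨_, rfl⟩
  have hr2 : r ^ 2 = 4 * s - 1 := by rw [hr]; exact Real.sq_sqrt (by linarith)
  have hr0 : 0 ≤ r := by rw [hr]; exact Real.sqrt_nonneg _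
  rw [← hr, ← hr2]
  have hr1 : r ≤ 45 / 100 := by nlinarith
  have hr3 : r ^ 3 ≤ (45 / 100) ^ 3 := by gcongr
  have hpi := pi_sq_lt
  have hpi0 : 0 < π ^ 2 := by positivity
  have e1 : π ^ 2 / 9 * (r ^ 2) ^ 2 * (1 / 2) = π ^ 2 / 18 * (r ^ 3 * r) := by ring
  have e2 : π ^ 2 / 18 * (r ^ 3 * r) ≤ (98697 / 10000) / 18 * ((45 / 100) ^ 3 * r) := by gcongr
  have e3 : 1 / 6 * (7 / 10) * (r / 2) ≤
      1 / 6 * (1 - s) * (r / 2) * (1 + (0:ℝ) / 10 + 13 * 0 ^ 2 / 1680) := by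
    have : 7 / 10 ≤ 1 - s := by linarith
    norm_num
    gcongr
    linarith
  rw [e1]
  nlinarith

theorem finB1 {s X : ℝ} (hs : s ≤ 32 / 100) (hX : X = 9 - 8 / 10 - 2 * √(6 + 8 / 10)) :
    π ^ 2 / 9 * (28 / 100) ^ 2 * (7 / 10) ≤
      99 / 100 * (1 / 6 * (1 - s) * (√((1 - 8 / 10) * (3 + 8 / 10)) / 2) *
        (1 + X / 10 + 13 * X ^ 2 / 1680)) := by
  have h := tri_coeff (s := s) (s2 := 32 / 100) (δ := 8 / 10) (g := 8717 / 10000)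
    (q := 2608 / 1000) (X := X) (X0 := 9 - 8 / 10 - 2 * (2608 / 1000)) hs (by norm_num)
    (by norm_num) (by norm_num) (by norm_num) (by norm_num) hX rfl (by norm_num)
  have hpi := pi_sq_lt
  refine le_trans ?_ (mul_le_mul_of_nonneg_left h (by norm_num))
  refine le_trans (b := (98697 / 10000) / 9 * (28 / 100) ^ 2 * (7 / 10)) (by gcongr) ?_
  norm_num

theorem finB2 {s X : ℝ} (hs : s ≤ 33 / 100) (hX : X = 9 - 1 / 2 - 2 * √(6 + 1 / 2)) :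
    π ^ 2 / 9 * (32 / 100) ^ 2 * (85 / 100) ≤
      99 / 100 * (1 / 6 * (1 - s) * (√((1 - 1 / 2) * (3 + 1 / 2)) / 2) *
        (1 + X / 10 + 13 * X ^ 2 / 1680)) := by
  have h := tri_coeff (s := s) (s2 := 33 / 100) (δ := 1 / 2) (g := 13228 / 10000)
    (q := 255 / 100) (X := X) (X0 := 9 - 1 / 2 - 2 * (255 / 100)) hs (by norm_num)
    (by norm_num) (by norm_num) (by norm_num) (by norm_num) hX rfl (by norm_num)
  have hpi := pi_sq_lt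
  refine le_trans ?_ (mul_le_mul_of_nonneg_left h (by norm_num))
  refine le_trans (b := (98697 / 10000) / 9 * (32 / 100) ^ 2 * (85 / 100)) (by gcongr) ?_
  norm_num

theorem finB3 {s X : ℝ} (hs : s ≤ 1 / 3) (hX : X = 9 - 27 / 100 - 2 * √(6 + 27 / 100)) :
    π ^ 2 / 9 * (1 / 3) ^ 2 * 1 ≤
      99 / 100 * (1 / 6 * (1 - s) * (√((1 - 27 / 100) * (3 + 27 / 100)) / 2) *
        (1 + X / 10 + 13 * X ^ 2 / 1680)) := by
  have h := tri_coeff (s := s) (s2 := 1 / 3) (δ := 27 / 100) (g := 1545 / 1000)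
    (q := 2504 / 1000) (X := X) (X0 := 9 - 27 / 100 - 2 * (2504 / 1000)) hs (by norm_num)
    (by norm_num) (by norm_num) (by norm_num) (by norm_num) hX rfl (by norm_num)
  have hpi := pi_sq_lt
  refine le_trans ?_ (mul_le_mul_of_nonneg_left h (by norm_num))
  refine le_trans (b := (98697 / 10000) / 9 * (1 / 3) ^ 2 * 1) (by gcongr) ?_
  norm_num

theorem finB4 {s X : ℝ} (hs : s ≤ 335 / 1000) (hX : X = 9 - 23 / 100 - 2 * √(6 + 23 / 100)) :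
    π ^ 2 / 9 * (34 / 100) ^ 2 * 1 ≤
      99 / 100 * (1 / 6 * (1 - s) * (√((1 - 23 / 100) * (3 + 23 / 100)) / 2) *
        (1 + X / 10 + 13 * X ^ 2 / 1680)) := by
  have h := tri_coeff (s := s) (s2 := 335 / 1000) (δ := 23 / 100) (g := 1577 / 1000)
    (q := 2496 / 1000) (X := X) (X0 := 9 - 23 / 100 - 2 * (2496 / 1000)) hs (by norm_num)
    (by norm_num) (by norm_num) (by norm_num) (by norm_num) hX rfl (by norm_num)
  have hpi := pi_sq_lt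
  refine le_trans ?_ (mul_le_mul_of_nonneg_left h (by norm_num))
  refine le_trans (b := (98697 / 10000) / 9 * (34 / 100) ^ 2 * 1) (by gcongr) ?_
  norm_num

/-- the final comparison in the four point case -/
theorem finA {s s2 Δ g κ m : ℝ} (hs0 : 0 < s) (hs : s ≤ s2) (hs2 : s2 ≤ 1) (hΔ0 : 0 ≤ Δ)
    (hΔ1 : Δ ≤ 1) (hg0 : 0 ≤ g) (hκ : 0 ≤ κ) (hm : 0 ≤ m)
    (hg : g ^ 2 * (16 * s2) ≤ (1 - s2) * ((1 - Δ) * (3 + Δ)))
    (hfin : (98697 / 10000) / 9 * m * κ ≤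
      99 / 100 * (1 / 6 * g * (1 + (6 - Δ) / 10 + 13 * (6 - Δ) ^ 2 / 1680))) :
    π ^ 2 / 9 * m * κ ≤ 99 / 100 * (1 / 6 * √((1 - s) * ((1 - Δ) * (3 + Δ)) / (16 * s)) *
      (1 + (6 - Δ) / 10 + 13 * (6 - Δ) ^ 2 / 1680)) := by
  have hpi := pi_sq_lt
  have h1 : g ≤ √((1 - s) * ((1 - Δ) * (3 + Δ)) / (16 * s)) := by
    apply Real.le_sqrt_of_sq_le
    rw [le_div_iff₀ (by linarith)]
    have hf : 0 ≤ (1 - Δ) * (3 + Δ) := mul_nonneg (by linarith) (by linarith)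
    calc g ^ 2 * (16 * s) ≤ g ^ 2 * (16 * s2) := by gcongr
      _ ≤ (1 - s2) * ((1 - Δ) * (3 + Δ)) := hg
      _ ≤ (1 - s) * ((1 - Δ) * (3 + Δ)) := by gcongr
  have h2 : 0 ≤ 1 + (6 - Δ) / 10 + 13 * (6 - Δ) ^ 2 / 1680 := by
    have : 0 ≤ 6 - Δ := by linarith
    positivity
  calc π ^ 2 / 9 * m * κ ≤ (98697 / 10000) / 9 * m * κ := by gcongr
    _ ≤ _ := hfin
    _ ≤ _ := by gcongr

end Pool.Agent.TH378.CW
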