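import Pool.Agent.TH378.CW.Slab
import Pool.Agent.TH378.CW.Num4
import Pool.Agent.TH480.CWfour
import Pool.Agent.TH480.CWsel
import Pool.Agent.TH480.CWcontact
import Pool.Agent.TH331.CW.TriVol
import Pool.Agent.TH158.CW.SimplexVol

/-!
# The bound for one cone
-/

set_option autoImplicit false

namespace Pool.Agent.TH378.CW

open MeasureTheory Metric
open scoped Real RealInnerProductSpace

theorem l_le {k : ℕ} (w : Fin k → H) (l : Fin k → ℝ) (z : H) (s : ℝ)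
    (hw : ∀ i, ‖w i‖ = 1 ∧ ⟪w i, z⟫ = ‖z‖ ^ 2) (hang : ∀ i j, 1 / 2 ≤ ⟪w i, w j⟫)
    (hl : ∀ i, 0 < l i) (hl1 : ∑ i, l i = 1) (hz : z = ∑ i, l i • w i)
    (hs : ‖z‖ ^ 2 = 1 - s) (i : Fin k) : l i ≤ 1 - 2 * s := by
  have h1 : ⟪w i, z⟫ = ∑ j, l j * ⟪w i, w j⟫ := by
    rw [hz, inner_sum]
    exact Finset.sum_congr rfl fun j _ => real_inner_smul_right _ _ _
  have h2 : ∑ j, l j * ⟪w i, w j⟫ ≥ ∑ j, (l j * (1 / 2) + if j = i then l i * (1 / 2) else 0) := by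
    apply Finset.sum_le_sum
    intro j _
    split_ifs with hj
    · subst hj
      rw [real_inner_self_eq_norm_sq, (hw j).1]
      linarith
    · have := mul_le_mul_of_nonneg_left (hang i j) (hl j).le
      linarith
  rw [Finset.sum_add_distrib, ← Finset.sum_mul, hl1, Finset.sum_ite_eq' Finset.univ i] at h2
  simp only [Finset.mem_univ, if_true] at h2
  rw [← h1, (hw i).2, hs] at h2
  linarith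

/-- The bound from a contact triangle. -/
theorem good_tri {C : Set H} (hC : Cone60 C) (hint : (interior C).Nonempty)
    (hne : ∃ u ∈ C, ‖u‖ = 1) {z n : H} {s D : ℝ} (hz0 : 0 < ‖z‖) (hs : ‖z‖ ^ 2 = 1 - s)
    (hs0 : 0 < s) (hs1 : s < 1) (hz : ∀ u ∈ C, ‖u‖ = 1 → ‖z‖ ^ 2 ≤ ⟪u, z⟫) (hzC : z ∈ C)
    (a : Fin 3 → H) (ha : ∀ i, a i ∈ C ∧ ‖a i‖ = 1 ∧ ⟪a i, z⟫ = ‖z‖ ^ 2) (hn : ‖n‖ = 1)
    (hnz : ⟪n, z⟫ = 0) (hD : ∀ i, ⟪a i, n⟫ = D) {κ m sT ρ f δ X : ℝ}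
    (hf : 0 ≤ f) (hf' : f ≤ her (‖a 0 - a 1‖ ^ 2) (‖a 0 - a 2‖ ^ 2) (‖a 1 - a 2‖ ^ 2))
    (hδ : 3 - δ ≤ ‖a 0 - a 1‖ ^ 2 + ‖a 0 - a 2‖ ^ 2 + ‖a 1 - a 2‖ ^ 2) (hδ0 : 0 ≤ δ)
    (hδ3 : δ ≤ 3) (hX : X = 9 - δ - 2 * √(6 + δ))
    (hκs : 4 * s - 1 ≤ κ) (hκ0 : 0 ≤ κ) (hκ1 : κ ≤ 1 / 2) (hm : MOK κ m)
    (hsT : s ≤ sT) (hsT1 : sT < 1) (hρ : 0 ≤ ρ)
    (hthin : ∀ tp tm W : ℝ, W = tp + tm → 0 < W →
      (∀ u ∈ C, -tm * ⟪u, z⟫ ≤ ‖z‖ * ⟪u, n⟫ ∧ ‖z‖ * ⟪u, n⟫ ≤ tp * ⟪u, z⟫) → ρ * W < κ →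
      0 ≤ (1 + ρ * W) * (6 + W) * (2 + 3 * (1 - sT) * W) +
      2 * (1 - ρ * W) * (6 * sT + W) - 4 * (6 * sT + W) * (2 + 3 * (1 - sT) * W))
    (hfin : π ^ 2 / 9 * m * ρ ≤
      99 / 100 * (1 / 6 * (1 - s) * (√f / 2) * (1 + X / 10 + 13 * X ^ 2 / 1680))) :
    volume (BadSet C) ≤ ENNReal.ofReal (99 / 25) * volume (C ∩ ball (0 : H) 1) *
      volume (ball (0 : H) 1) := by
  obtain ⟨tp, tm, yp, ym, hyp, hyp1, hym, hym1, htp, htm, hT⟩ := slab hC (n := n) hz0 hz hne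
  obtain ⟨p1, p2, p3⟩ := slab_pos hint hz0 hzC hn hnz hT
  have hvol := Pool.Agent.TH331.CW.tri_vol hC z n s D hs hs1 hz a ha hn hnz hD f δ hf hf' hδ hδ0
    hδ3 tp tm yp ym hyp hyp1 hym hym1 htp htm hT X hX
  have hcn : ⟪(1 / ‖z‖) • z, n⟫ = 0 := by
    rw [real_inner_smul_left, real_inner_comm, hnz, mul_zero]
  refine good_of_thin (norm_unit hz0) hn hcn (s := s) (κ := κ) (m := m) (sT := sT) (ρ := ρ)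
    (c0 := 1 / 6 * (1 - s) * (√f / 2) * (1 + X / 10 + 13 * X ^ 2 / 1680)) (tp := tp) (tm := tm)
    (W := tp + tm) hκs hκ0 hκ1 hm (cap_of_min hz0 hs hz) hsT (by linarith) hsT1 rfl p3 p1 p2 hρ
    ?_ (hthin tp tm _ rfl p3 hT) hvol hfin
  intro u hu
  obtain ⟨t1, t2⟩ := hT u hu
  rw [real_inner_smul_right]
  have e : ∀ x y : ℝ, x * (1 / ‖z‖ * y) = (x * y) / ‖z‖ := by intro x y; ring
  rw [e, e, div_le_iff₀ hz0, le_div_iff₀ hz0]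
  constructor <;> linarith

/-- The bound from four contact points. -/
theorem good_four {C : Set H} (hC : Cone60 C) {z : H} {s : ℝ} (hz0 : 0 < ‖z‖)
    (hs : ‖z‖ ^ 2 = 1 - s) (hs1 : 1 / 4 < s) (hs2 : s ≤ 3 / 8)
    (hz : ∀ u ∈ C, ‖u‖ = 1 → ‖z‖ ^ 2 ≤ ⟪u, z⟫)
    (w : Fin 4 → H) (l : Fin 4 → ℝ) (hw : ∀ i, w i ∈ C ∧ ‖w i‖ = 1 ∧ ⟪w i, z⟫ = ‖z‖ ^ 2)
    (hl : ∀ i, 0 < l i) (hl1 : ∑ i, l i = 1) (hzl : z = ∑ i, l i • w i)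
    {μ Δ κ m g s2 : ℝ} (hμ0 : 0 < μ)
    (hμ : ∀ i j, i ≠ j → μ ≤ l i + l j) (hΔ : 3 - 8 * s ≤ Δ * μ) (hΔ0 : 0 ≤ Δ) (hΔ1 : Δ ≤ 1)
    (hκs : 4 * s - 1 ≤ κ) (hκ0 : 0 ≤ κ) (hκ1 : κ ≤ 1 / 2) (hm : MOK κ m)
    (hss : s ≤ s2) (hs21 : s2 ≤ 1) (hg0 : 0 ≤ g)
    (hg : g ^ 2 * (16 * s2) ≤ (1 - s2) * ((1 - Δ) * (3 + Δ)))
    (hfin : (98697 / 10000) / 9 * m * κ ≤
      99 / 100 * (1 / 6 * g * (1 + (6 - Δ) / 10 + 13 * (6 - Δ) ^ 2 / 1680))) :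
    volume (BadSet C) ≤ ENNReal.ofReal (99 / 25) * volume (C ∩ ball (0 : H) 1) *
      volume (ball (0 : H) 1) := by
  have hvol := Pool.Agent.TH480.CWfour.four_vol Pool.Agent.TH158.CW.simplex_vol hC z w l hw hl hl1
    hzl s hs hs1 hs2 μ Δ hμ0 hμ hΔ hΔ0 hΔ1 (6 - Δ) rfl
  exact good_of_cap (norm_unit hz0) hκs hκ0 hκ1 hm (cap_of_min hz0 hs hz) hvol
    (finA (by linarith) hss hs21 hΔ0 hΔ1 hg0 hκ0 (hm.nonneg hκ0 hκ1) hg hfin)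

end Pool.Agent.TH378.CW
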