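import Pool.Agent.TH378.CW.Good2
import Pool.Agent.TH378.CW.Circ

/-!
# The bound for one cone: case analysis
-/

set_option autoImplicit false

namespace Pool.Agent.TH378.CW

open MeasureTheory Metric
open scoped Real RealInnerProductSpace

theorem exists_unit {C : Set H} (hC : Cone60 C) (hint : (interior C).Nonempty) :
    ∃ u ∈ C, ‖u‖ = 1 := by
  obtain ⟨u, hu⟩ := hint
  obtain ⟨ε, hε, hball⟩ := Metric.mem_nhds_iff.1 (mem_interior_iff_mem_nhds.1 hu)
  have : ∃ v ∈ C, v ≠ 0 := by
    by_cases h : u = 0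
    · refine ⟨u + (ε / 2) • qI, hball ?_, ?_⟩
      · rw [mem_ball, dist_eq_norm, add_sub_cancel_left, norm_smul, norm_qI, mul_one,
          Real.norm_eq_abs, abs_of_pos (by positivity)]
        linarith
      · rw [h, zero_add]
        intro h2
        have := congrArg norm h2
        rw [norm_smul, norm_qI, mul_one, Real.norm_eq_abs, abs_of_pos (by positivity),
          norm_zero] at this
        linarith
    · exact ⟨u, interior_subset hu, h⟩
  obtain ⟨v, hv, hv0⟩ := this
  have hvn : 0 < ‖v‖ := norm_pos_iff.2 hv0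
  refine ⟨‖v‖⁻¹ • v, hC.smul v hv _ (by positivity), ?_⟩
  rw [norm_smul, norm_inv, norm_norm, inv_mul_cancel₀ hvn.ne']

theorem dist_sq_le {C : Set H} (hC : Cone60 C) {u v : H} (hu : u ∈ C) (hv : v ∈ C)
    (hu1 : ‖u‖ = 1) (hv1 : ‖v‖ = 1) : ‖u - v‖ ^ 2 ≤ 1 := by
  have := hC.ang u hu v hv hu1 hv1
  rw [norm_sub_sq_real, hu1, hv1]; linarith

theorem good {C : Set H} (hC : Cone60 C) (hint : (interior C).Nonempty) :
    volume (BadSet C) ≤ ENNReal.ofReal (99 / 25) * volume (C ∩ ball (0 : H) 1) *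
      volume (ball (0 : H) 1) := by
  have hne := exists_unit hC hint
  obtain ⟨z, k, w, l, hk, hw, hl, hl1, hzl, hz, hz58⟩ :=
    Pool.Agent.TH480.CWcontact.contact hC hne
  obtain ⟨s, hs⟩ : ∃ s : ℝ, ‖z‖ ^ 2 = 1 - s := ⟨1 - ‖z‖ ^ 2, by ring⟩
  have hs38 : s ≤ 3 / 8 := by linarith
  have hz0 : 0 < ‖z‖ := by
    rcases (norm_nonneg z).eq_or_lt with h | h
    · rw [← h] at hz58; norm_num at hz58
    · exact h
  have hzne : z ≠ 0 := norm_pos_iff.1 hz0
  have hzC : z ∈ C := by
    rw [hzl]
    exact hC.cvx.sum_mem (fun i _ => (hl i).le) hl1 (fun i _ => (hw i).1)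
  have hw' : ∀ i, ‖w i‖ = 1 ∧ ⟪w i, z⟫ = ‖z‖ ^ 2 := fun i => (hw i).2
  have hang : ∀ i j, 1 / 2 ≤ ⟪w i, w j⟫ := fun i j =>
    hC.ang _ (hw i).1 _ (hw j).1 (hw i).2.1 (hw j).2.1
  have hcap := cap_of_min hz0 hs hz
  rcases le_or_gt s (1 / 4) with h14 | h14
  · exact good_of_small (norm_unit hz0) h14 hcap
  -- the case k = 4 and `s > 0.335`
  rcases lt_or_ge (335 / 1000) s with hA | hA
  · have hlle := l_le w l z s hw' hang hl hl1 hzl hs
    have hk4 : k = 4 := by
      by_contra hcon
      have hk3 : k ≤ 3 := by omega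
      have : (1 : ℝ) ≤ ∑ _i : Fin k, (1 - 2 * s) :=
        hl1.symm.le.trans (Finset.sum_le_sum fun i _ => hlle i)
      rw [Finset.sum_const, Finset.card_univ, Fintype.card_fin, nsmul_eq_mul] at this
      have hk3' : (k : ℝ) ≤ 3 := by exact_mod_cast hk3
      nlinarith
    subst hk4
    have hμ : ∀ i j : Fin 4, i ≠ j → 4 * s - 1 ≤ l i + l j := by
      intro i j hij
      have hsum : ∑ t, l t = l i + l j + ∑ t ∈ (Finset.univ.erase i).erase j, l t := by
        rw [← Finset.add_sum_erase _ _ (Finset.mem_univ i), ← Finset.add_sum_erase _ _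
          (Finset.mem_erase.2 ⟨hij.symm, Finset.mem_univ j⟩)]
        ring
      have hle : ∑ t ∈ (Finset.univ.erase i).erase j, l t ≤
          ∑ t ∈ (Finset.univ.erase i).erase j, (1 - 2 * s) :=
        Finset.sum_le_sum fun t _ => hlle t
      rw [Finset.sum_const, Finset.card_erase_of_mem (Finset.mem_erase.2 ⟨hij.symm,
        Finset.mem_univ j⟩), Finset.card_erase_of_mem (Finset.mem_univ i), Finset.card_univ,
        Fintype.card_fin, nsmul_eq_mul] at hle
      norm_num at hle
      linarith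
    have hμ0 : 0 < 4 * s - 1 := by linarith
    rcases lt_or_ge (3744 / 10000) s with b1 | b1
    · refine good_four hC hz0 hs h14 hs38 hz w l hw hl hl1 hzl (μ := 4 * s - 1) (Δ := 97 / 10000)
        (κ := 1 / 2) (m := 3144 / 10000) (g := 5571 / 10000) (s2 := 3 / 8) hμ0 hμ (by linarith)
        (by norm_num) (by norm_num) (by linarith) (by norm_num) (by norm_num)
        (MOK_of (by norm_num) (by norm_num) (by norm_num)) hs38 (by norm_num) (by norm_num)
        (by norm_num) (by norm_num)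
    rcases lt_or_ge (372 / 1000) s with b2 | b2
    · refine good_four hC hz0 hs h14 hs38 hz w l hw hl hl1 hzl (μ := 4 * s - 1) (Δ := 492 / 10000)
        (κ := 4976 / 10000) (m := 3105 / 10000) (g := 5502 / 10000) (s2 := 3744 / 10000) hμ0 hμ
        (by linarith)
        (by norm_num) (by norm_num) (by linarith) (by norm_num) (by norm_num)
        (MOK_of (by norm_num) (by norm_num) (by norm_num)) b1 (by norm_num) (by norm_num)
        (by norm_num) (by norm_num)
    rcases lt_or_ge (364 / 1000) s with b3 | b3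
    · refine good_four hC hz0 hs h14 hs38 hz w l hw hl hl1 hzl (μ := 4 * s - 1) (Δ := 193 / 1000)
        (κ := 488 / 1000) (m := 2951 / 10000) (g := 521 / 1000) (s2 := 372 / 1000) hμ0 hμ
        (by linarith)
        (by norm_num) (by norm_num) (by linarith) (by norm_num) (by norm_num)
        (MOK_of (by norm_num) (by norm_num) (by norm_num)) b2 (by norm_num) (by norm_num)
        (by norm_num) (by norm_num)
    rcases lt_or_ge (35 / 100) s with b4 | b4
    · refine good_four hC hz0 hs h14 hs38 hz w l hw hl hl1 hzl (μ := 4 * s - 1) (Δ := 5001 / 10000)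
        (κ := 456 / 1000) (m := 2467 / 10000) (g := 436 / 1000) (s2 := 364 / 1000) hμ0 hμ
        (by linarith)
        (by norm_num) (by norm_num) (by linarith) (by norm_num) (by norm_num)
        (MOK_of (by norm_num) (by norm_num) (by norm_num)) b3 (by norm_num) (by norm_num)
        (by norm_num) (by norm_num)
    rcases lt_or_ge (34 / 100) s with b5 | b5
    · refine good_four hC hz0 hs h14 hs38 hz w l hw hl hl1 hzl (μ := 4 * s - 1) (Δ := 7778 / 10000)
        (κ := 4 / 10) (m := 1727 / 10000) (g := 300 / 1000) (s2 := 35 / 100) hμ0 hμ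
        (by linarith)
        (by norm_num) (by norm_num) (by linarith) (by norm_num) (by norm_num)
        (MOK_of (by norm_num) (by norm_num) (by norm_num)) b4 (by norm_num) (by norm_num)
        (by norm_num) (by norm_num)
    rcases lt_or_ge (336 / 1000) s with b6 | b6
    · refine good_four hC hz0 hs h14 hs38 hz w l hw hl hl1 hzl (μ := 4 * s - 1) (Δ := 907 / 1000)
        (κ := 36 / 100) (m := (36 / 100) ^ 2) (g := 200 / 1000) (s2 := 34 / 100) hμ0 hμ
        (by linarith)
        (by norm_num) (by norm_num) (by linarith) (by norm_num) (by norm_num)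
        (MOK_sq (by norm_num) (by norm_num)) b5 (by norm_num) (by norm_num)
        (by norm_num) (by norm_num)
    · refine good_four hC hz0 hs h14 hs38 hz w l hw hl hl1 hzl (μ := 4 * s - 1) (Δ := 9412 / 10000)
        (κ := 344 / 1000) (m := (344 / 1000) ^ 2) (g := 168 / 1000) (s2 := 336 / 1000) hμ0 hμ
        (by linarith)
        (by norm_num) (by norm_num) (by linarith) (by norm_num) (by norm_num)
        (MOK_sq (by norm_num) (by norm_num)) b6 (by norm_num) (by norm_num)
        (by norm_num) (by norm_num)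
  -- small case
  rcases le_or_gt s (3 / 10) with hCc | hCc
  · obtain ⟨a, n, D, haw, hn, hnz, hD, hher⟩ :=
      Pool.Agent.TH480.CWsel.selC k hk w l z s hw' hang hl hl1 hzl hs h14 hs38
    have ha : ∀ i, a i ∈ C ∧ ‖a i‖ = 1 ∧ ⟪a i, z⟫ = ‖z‖ ^ 2 := by
      intro i
      obtain ⟨j, hj⟩ := haw i
      rw [hj]; exact hw j
    have hsqrt9 : √((6 : ℝ) + 3) = 3 := by
      rw [show (6 : ℝ) + 3 = 3 ^ 2 by norm_num]; exact Real.sqrt_sq (by norm_num)
    refine good_tri hC hint hne hz0 hs (by linarith) (by linarith) hz hzC a ha hn hnz hD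
      (κ := 4 * s - 1) (m := (4 * s - 1) ^ 2) (sT := 3 / 10) (ρ := 1 / 2) (f := 4 * s - 1)
      (δ := 3) (X := 0) (by linarith) hher ?_ (by norm_num) le_rfl ?_ le_rfl (by linarith)
      (by linarith) (MOK_sq (by linarith) (by linarith)) hCc (by norm_num) (by norm_num) ?_
      (finC h14 hCc)
    · have h1 := sq_nonneg (‖a 0 - a 1‖)
      have h2 := sq_nonneg (‖a 0 - a 2‖)
      have h3 := sq_nonneg (‖a 1 - a 2‖)
      linarith
    · rw [hsqrt9]; norm_num
    · intro tp tm W _ hW0 _ hlt
      exact thinC hW0 (by linarith)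
  -- middle cases
  obtain ⟨a, n, D, lm, m, haw, hn, hnz, hD, hD0, hlm0, hlm1, hm, hdef, hkk⟩ :=
    Pool.Agent.TH480.CWsel.selB k hk w l z s (1 - 2 * s) hw' hang hl hl1 hzl hs h14 rfl
  have ha : ∀ i, a i ∈ C ∧ ‖a i‖ = 1 ∧ ⟪a i, z⟫ = ‖z‖ ^ 2 := by
    intro i
    obtain ⟨j, hj⟩ := haw i
    rw [hj]; exact hw j
  have hE : ∀ i j, ‖a i - a j‖ ^ 2 ≤ 1 := fun i j =>
    dist_sq_le hC (ha i).1 (ha j).1 (ha i).2.1 (ha j).2.1
  rcases le_or_gt s (32 / 100) with hB1 | hB1
  · have hdd := deltaB1 (by linarith) (by linarith) hlm0 hlm1 hm hdef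
    exact good_tri hC hint hne hz0 hs (by linarith) (by linarith) hz hzC a ha hn hnz hD
      (κ := 28 / 100) (m := (28 / 100) ^ 2) (sT := 32 / 100) (ρ := 7 / 10)
      (f := (1 - 8 / 10) * (3 + 8 / 10))
      (δ := 8 / 10) (X := 9 - 8 / 10 - 2 * √(6 + 8 / 10)) (by norm_num)
      (her_ge (hE _ _) (hE _ _) (hE _ _) (by linarith) (by norm_num)) (by linarith)
      (by norm_num) (by norm_num) rfl (by linarith) (by norm_num)
      (by norm_num) (MOK_sq (by norm_num) (by norm_num)) hB1 (by norm_num) (by norm_num)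
      (fun tp tm W _ hW0 _ _ => thinB1 hW0)
      (finB1 hB1 rfl)
  rcases le_or_gt s (33 / 100) with hB2 | hB2
  · have hdd := deltaB2 (by linarith) (by linarith) hlm0 hlm1 hm hdef
    exact good_tri hC hint hne hz0 hs (by linarith) (by linarith) hz hzC a ha hn hnz hD
      (κ := 32 / 100) (m := (32 / 100) ^ 2) (sT := 33 / 100) (ρ := 85 / 100)
      (f := (1 - 1 / 2) * (3 + 1 / 2))
      (δ := 1 / 2) (X := 9 - 1 / 2 - 2 * √(6 + 1 / 2)) (by norm_num)
      (her_ge (hE _ _) (hE _ _) (hE _ _) (by linarith) (by norm_num)) (by linarith)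
      (by norm_num) (by norm_num) rfl (by linarith) (by norm_num)
      (by norm_num) (MOK_sq (by norm_num) (by norm_num)) hB2 (by norm_num) (by norm_num)
      (fun tp tm W _ hW0 _ _ => thinB2 hW0)
      (finB2 hB2 rfl)
  rcases le_or_gt lm (19 / 100) with hlm | hlm
  swap
  · -- four contact points with large weights
    obtain ⟨hk4, hlmi, -, -⟩ := hkk.resolve_left (by rintro ⟨-, h, -⟩; linarith)
    subst hk4
    have hμ : ∀ i j : Fin 4, i ≠ j → (38 / 100 : ℝ) ≤ l i + l j := by
      intro i j _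
      have h1 := hlmi i
      have h2 := hlmi j
      linarith
    rcases le_or_gt s (1 / 3) with hB3 | hB3
    · refine good_four hC hz0 hs h14 hs38 hz w l hw hl hl1 hzl (μ := 38 / 100) (Δ := 95 / 100)
        (κ := 1 / 3) (m := (1 / 3) ^ 2) (g := 157 / 1000) (s2 := 1 / 3) (by norm_num) hμ
        (by linarith)
        (by norm_num) (by norm_num) (by linarith) (by norm_num) (by norm_num)
        (MOK_sq (by norm_num) (by norm_num)) hB3 (by norm_num) (by norm_num)
        (by norm_num) (by norm_num)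
    · refine good_four hC hz0 hs h14 hs38 hz w l hw hl hl1 hzl (μ := 38 / 100) (Δ := 88 / 100)
        (κ := 34 / 100) (m := (34 / 100) ^ 2) (g := 240 / 1000) (s2 := 335 / 1000) (by norm_num) hμ
        (by linarith)
        (by norm_num) (by norm_num) (by linarith) (by norm_num) (by norm_num)
        (MOK_sq (by norm_num) (by norm_num)) hA (by norm_num) (by norm_num)
        (by norm_num) (by norm_num)
  rcases le_or_gt s (1 / 3) with hB3 | hB3
  · have hdd := deltaB3 (by linarith) (by linarith) hlm0 hlm hm hdef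
    exact good_tri hC hint hne hz0 hs (by linarith) (by linarith) hz hzC a ha hn hnz hD
      (κ := 1 / 3) (m := (1 / 3) ^ 2) (sT := 1 / 3) (ρ := 1)
      (f := (1 - 27 / 100) * (3 + 27 / 100))
      (δ := 27 / 100) (X := 9 - 27 / 100 - 2 * √(6 + 27 / 100)) (by norm_num)
      (her_ge (hE _ _) (hE _ _) (hE _ _) (by linarith) (by norm_num)) (by linarith)
      (by norm_num) (by norm_num) rfl (by linarith) (by norm_num)
      (by norm_num) (MOK_sq (by norm_num) (by norm_num)) hB3 (by norm_num) (by norm_num)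
      (fun tp tm W _ hW0 _ _ => thinB3 hW0)
      (finB3 hB3 rfl)
  · have hdd := deltaB4 (by linarith) (by linarith) hlm0 hlm hm hdef
    have hcirc := circ hzne hs hn hnz a (fun i => (ha i).2) hD
    have hge := her_ge (δ := 23 / 100) (hE 0 1) (hE 0 2) (hE 1 2) (by linarith) (by norm_num)
    have hpr := her_prod (sq_nonneg (‖a 0 - a 1‖)) (sq_nonneg (‖a 0 - a 2‖))
      (sq_nonneg (‖a 1 - a 2‖)) (hE 0 1) (hE 0 2) (hE 1 2) (by linarith)
    have hDsq : s - 1 / 3 ≤ D ^ 2 := by
      have hpos : 0 < her (‖a 0 - a 1‖ ^ 2) (‖a 0 - a 2‖ ^ 2) (‖a 1 - a 2‖ ^ 2) :=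
        lt_of_lt_of_le (by norm_num) hge
      have : (s - D ^ 2) * her (‖a 0 - a 1‖ ^ 2) (‖a 0 - a 2‖ ^ 2) (‖a 1 - a 2‖ ^ 2) ≤
          1 / 3 * her (‖a 0 - a 1‖ ^ 2) (‖a 0 - a 2‖ ^ 2) (‖a 1 - a 2‖ ^ 2) := by
        rw [hcirc]; linarith
      have := le_of_mul_le_mul_right this hpos
      linarith
    have hDpos : 0 < D := by
      rcases hD0.eq_or_lt with h | h
      · rw [← h] at hDsq; norm_num at hDsq; linarith
      · exact h
    obtain ⟨hk4, hlmi, hlmpos, j, hj⟩ := hkk.resolve_left (by rintro ⟨-, -, h⟩; linarith)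
    exact good_tri hC hint hne hz0 hs (by linarith) (by linarith) hz hzC a ha hn hnz hD
      (κ := 34 / 100) (m := (34 / 100) ^ 2) (sT := s) (ρ := 1)
      (f := (1 - 23 / 100) * (3 + 23 / 100))
      (δ := 23 / 100) (X := 9 - 23 / 100 - 2 * √(6 + 23 / 100)) (by norm_num) hge (by linarith)
      (by norm_num) (by norm_num) rfl (by linarith) (by norm_num)
      (by norm_num) (MOK_sq (by norm_num) (by norm_num)) le_rfl (by linarith) (by norm_num)
      (by
        intro tp tm W hW hW0 hT hlt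
        apply thinB4 hW0 (by linarith) hB3.le hA
        have t1 := (hT _ (ha 0).1).2
        have t2 := (hT _ (hw j).1).1
        rw [(ha 0).2.2, hD 0] at t1
        rw [(hw j).2.2] at t2
        have hwj : ⟪w j, n⟫ ≤ -3 * D := by
          have e1 : lm * ⟪w j, n⟫ ≤ lm * (-3 * D) := by
            rw [hj]
            nlinarith
          exact le_of_mul_le_mul_left e1 hlmpos
        have q1 : D ≤ tp * ‖z‖ := by
          have : ‖z‖ * D ≤ ‖z‖ * (tp * ‖z‖) := by linarith
          exact le_of_mul_le_mul_left this hz0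
        have q2 : 3 * D ≤ tm * ‖z‖ := by
          have h5 : ‖z‖ * ⟪w j, n⟫ ≤ ‖z‖ * (-3 * D) := mul_le_mul_of_nonneg_left hwj hz0.le
          have : ‖z‖ * (3 * D) ≤ ‖z‖ * (tm * ‖z‖) := by linarith
          exact le_of_mul_le_mul_left this hz0
        have q3 : 4 * D ≤ W * ‖z‖ := by rw [hW]; linarith
        have q4 : (4 * D) ^ 2 ≤ (W * ‖z‖) ^ 2 := by gcongr
        rw [mul_pow, mul_pow, hs] at q4
        linarith)
      (finB4 hA rfl)

end Pool.Agent.TH378.CW
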