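import Pool.Agent.TH378.CW.NullPart
import Pool.Agent.TH378.CW.Good3
import Pool.Agent.TH209.CW.Pack
import Pool.Agent.TH830.J1049

/-!
# Every body of constant width one in dimension four is illuminated by eight directions
-/

set_option autoImplicit false

namespace Pool.Agent.TH378.CW

open MeasureTheory Metric
open scoped Real RealInnerProductSpace

theorem vol_ball : volume (ball (0 : H) 1) = ENNReal.ofReal (π ^ 2 / 2) := by
  have h := InnerProductSpace.volume_ball_of_dim_even (E := H) (k := 2)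
    (by rw [finrank_H]) (0 : H) 1
  rw [h]
  simp [Nat.factorial]

theorem vol_Om : volume Om = ENNReal.ofReal (π ^ 2 / 2) * ENNReal.ofReal (π ^ 2 / 4) := by
  unfold Om
  rw [Measure.volume_eq_prod, Measure.prod_prod, Measure.volume_eq_prod, Measure.prod_prod,
    vol_ball, Real.volume_Icc, sub_zero, ← ENNReal.ofReal_mul (by positivity)]
  congr 2
  ring

theorem countable_Q {K : Set H} : {q | q ∈ K ∧ (interior (Nc K q)).Nonempty}.Countable := by
  have : SecondCountableTopology H := inferInstance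
  apply Set.PairwiseDisjoint.countable_of_isOpen (s := fun q => interior (Nc K q))
  · intro q hq q' hq' hne
    rw [Function.onFun, Set.disjoint_left]
    intro u hu hu'
    apply hne
    -- ⟪v, q - q'⟫ = 0 for all v near u
    have key : ∀ v ∈ interior (Nc K q) ∩ interior (Nc K q'), ⟪v, q - q'⟫ = 0 := by
      rintro v ⟨hv, hv'⟩
      have h1 : ⟪v, q' - q⟫ ≤ 0 := interior_subset hv q' hq'.1
      have h2 : ⟪v, q - q'⟫ ≤ 0 := interior_subset hv' q hq.1
      rw [← neg_sub, inner_neg_right] at h1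
      linarith
    have hop : IsOpen (interior (Nc K q) ∩ interior (Nc K q')) :=
      isOpen_interior.inter isOpen_interior
    obtain ⟨ε, hε, hball⟩ := Metric.isOpen_iff.1 hop u ⟨hu, hu'⟩
    by_contra hqq
    have hd : 0 < ‖q - q'‖ := norm_pos_iff.2 (sub_ne_zero.2 hqq)
    have hm : u + (ε / 2 / ‖q - q'‖) • (q - q') ∈ ball u ε := by
      rw [mem_ball, dist_eq_norm, add_sub_cancel_left, norm_smul, Real.norm_eq_abs,
        abs_of_pos (by positivity), div_mul_cancel₀ _ hd.ne']
      linarith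
    have e1 := key _ (hball hm)
    have e2 := key u ⟨hu, hu'⟩
    rw [inner_add_left, real_inner_smul_left, e2, zero_add, real_inner_self_eq_norm_sq] at e1
    have : 0 < ε / 2 / ‖q - q'‖ * ‖q - q'‖ ^ 2 := by positivity
    linarith
  · intro q _; exact isOpen_interior
  · intro q hq; exact hq.2

theorem vol_interior {C : Set H} (hC : Cone60 C) :
    volume (C ∩ ball (0 : H) 1) = volume (interior C ∩ ball (0 : H) 1) := by
  apply le_antisymm
  · have hsub : C ∩ ball (0 : H) 1 ⊆ (interior C ∩ ball (0 : H) 1) ∪ frontier C := by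
      rintro x ⟨hx, hb⟩
      by_cases h : x ∈ interior C
      · exact Or.inl ⟨h, hb⟩
      · exact Or.inr ⟨subset_closure hx, h⟩
    refine (measure_mono hsub).trans ((measure_union_le _ _).trans ?_)
    rw [hC.cvx.addHaar_frontier (volume : Measure H), add_zero]
  · exact measure_mono (Set.inter_subset_inter_left _ interior_subset)

theorem full_part {K : Set H} (hK : Wid K) :
    volume (⋃ q ∈ {q | q ∈ K ∧ (interior (Nc K q)).Nonempty}, BadSet (Nc K q)) ≤
      ENNReal.ofReal (99 / 25) * (volume (ball (0 : H) 1) / 8) * volume (ball (0 : H) 1) := by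
  refine (measure_biUnion_le _ countable_Q _).trans ?_
  have h1 : ∀ q : {q | q ∈ K ∧ (interior (Nc K q)).Nonempty}, volume (BadSet (Nc K q)) ≤
      ENNReal.ofReal (99 / 25) * volume (interior (Nc K (q : H)) ∩ ball (0 : H) 1) *
        volume (ball (0 : H) 1) := by
    rintro ⟨q, hq, hint⟩
    have hC := Pool.Agent.TH830.J1049.cone60_Nc hK q hq
    rw [← vol_interior hC]
    exact good hC hint
  refine (ENNReal.tsum_le_tsum h1).trans ?_
  rw [ENNReal.tsum_mul_right, ENNReal.tsum_mul_left]
  gcongr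
  refine ENNReal.summable.tsum_le_of_sum_le fun F => ?_
  have := Pool.Agent.TH209.CW.packing hK (F.map (Function.Embedding.subtype _)) (by
    intro q hq
    rw [Finset.mem_map] at hq
    obtain ⟨a, _, ha⟩ := hq
    rw [← ha]
    exact a.2.1)
  rw [Finset.sum_map] at this
  exact this

theorem exists_good_frame {K : Set H} (hK : Wid K) :
    ∃ (y : H) (φ ψ : ℝ), ∀ q ∈ K, ¬ Bad (Nc K q) (fr y φ ψ) := by
  by_contra hcon
  push Not at hcon
  have hsub : Om ⊆ (⋃ q ∈ {q | q ∈ K ∧ (interior (Nc K q)).Nonempty}, BadSet (Nc K q)) ∪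
      {p : H × ℝ × ℝ | ∃ q ∈ K, interior (Nc K q) = ∅ ∧ p ∈ BadSet (Nc K q)} := by
    rintro ⟨y, φ, ψ⟩ hp
    obtain ⟨q, hq, hb⟩ := hcon y φ ψ
    rcases Set.eq_empty_or_nonempty (interior (Nc K q)) with h | h
    · right
      exact ⟨q, hq, h, hp, hb⟩
    · left
      simp only [Set.mem_iUnion]
      exact ⟨q, ⟨hq, h⟩, hp, hb⟩
  have h : volume Om ≤ _ + _ :=
    (measure_mono (μ := (volume : Measure (H × ℝ × ℝ))) hsub).trans (measure_union_le _ _)
  rw [null_part hK (fun q hq => Pool.Agent.TH830.J1049.cone60_Nc hK q hq), add_zero] at h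
  have h2 := h.trans (full_part hK)
  rw [vol_Om, vol_ball] at h2
  have e8 : ENNReal.ofReal (π ^ 2 / 2) / 8 = ENNReal.ofReal (π ^ 2 / 16) := by
    rw [show (8 : ENNReal) = ENNReal.ofReal 8 by norm_num, ← ENNReal.ofReal_div_of_pos (by norm_num)]
    congr 1; ring
  rw [e8, ← ENNReal.ofReal_mul (by positivity), ← ENNReal.ofReal_mul (by positivity),
    ← ENNReal.ofReal_mul (by positivity), ENNReal.ofReal_le_ofReal_iff (by positivity)] at h2
  have hpi : 0 < π ^ 2 * π ^ 2 := by positivity
  nlinarith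

theorem main_H {K : Set H} (hK : Wid K) (hi : (interior K).Nonempty) :
    ∃ e : Fin 4 → H, ∀ q ∈ frontier K, ∃ i,
      (∃ t : ℝ, 0 < t ∧ q + t • e i ∈ interior K) ∨ (∃ t : ℝ, 0 < t ∧ q + t • (-e i) ∈ interior K) := by
  obtain ⟨y, φ, ψ, h⟩ := exists_good_frame hK
  refine ⟨fr y φ ψ, fun q hq => ?_⟩
  have hqK : q ∈ K := hK.cpt.isClosed.frontier_subset hq
  have hb := h q hqK
  unfold Bad at hb
  push Not at hb
  obtain ⟨i, hi'⟩ := hb
  exact ⟨i, Pool.Agent.TH830.J1049.illum hK hi (fr y φ ψ i) q hq hi'⟩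

end Pool.Agent.TH378.CW
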