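import Pool.Agent.TH378.CW.BadMeas
import Pool.Agent.TH541.CWNull
import Pool.Agent.TH541.CWPlanar

/-!
# The frames that are bad for a cone with empty interior form a null set
-/

set_option autoImplicit false

namespace Pool.Agent.TH378.CW

open MeasureTheory Metric
open scoped Real RealInnerProductSpace

/-- The set of `null_E`. -/
def ESet (K : Set H) : Set H :=
  {x : H | ∃ q ∈ K, ∃ u ∈ Nc K q, ∃ v ∈ Nc K q, ∃ r : ℝ, 0 < r ∧ x = r • u ∧
      ‖u‖ = 1 ∧ ‖v‖ = 1 ∧ ⟪u, v⟫ = 1 / 2}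

theorem ESet_null {K : Set H} (hK : Wid K) : volume (ESet K) = 0 :=
  Pool.Agent.TH541.CWN.null_E hK

theorem Bad.scale {C : Set H} {y : H} {φ ψ : ℝ} (h : Bad C (fr y φ ψ)) (t : ℝ) :
    Bad C (fr (t • y) φ ψ) := by
  intro i
  obtain ⟨u, hu, hu1, hu2⟩ := h i
  refine ⟨u, hu, hu1, ?_⟩
  rw [fr_smul, real_inner_smul_right, hu2, mul_zero]

/-- The coefficient `ε g_k + δ g_l`. -/
noncomputable def cf (k l : Fin 4) (ε δ : ℝ) (p : ℝ × ℝ) : H :=
  ε • gq p.1 p.2 k + δ • gq p.1 p.2 l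

theorem cf_mul (k l : Fin 4) (ε δ : ℝ) (y : H) (φ ψ : ℝ) :
    cf k l ε δ (φ, ψ) * y = ε • fr y φ ψ k + δ • fr y φ ψ l := by
  unfold cf
  rw [fr_eq, fr_eq, add_mul, smul_mul_assoc, smul_mul_assoc]

theorem cf_ne_zero {k l : Fin 4} (hkl : k ≠ l) {ε δ : ℝ} (hε : ε = 1 ∨ ε = -1)
    (p : ℝ × ℝ) : cf k l ε δ p ≠ 0 := by
  intro h
  have h2 : ⟪cf k l ε δ p, gq p.1 p.2 k⟫ = ε := by
    unfold cf
    rw [inner_add_left, real_inner_smul_left, real_inner_smul_left, real_inner_self_eq_norm_sq,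
      norm_gq, inner_gq _ _ _ _ hkl.symm]
    ring
  rw [h, inner_zero_left] at h2
  rcases hε with h3 | h3 <;> rw [h3] at h2 <;> norm_num at h2

theorem continuous_U : Continuous U := by
  have : U = fun t => Real.cos t • (1 : H) + Real.sin t • qI := by
    funext t
    have h1 : (1 : H).re = 1 := rfl
    have h2 : (1 : H).imI = 0 := rfl
    have h3 : (1 : H).imJ = 0 := rfl
    have h4 : (1 : H).imK = 0 := rfl
    ext
    · change Real.cos t = Real.cos t * (1 : H).re + Real.sin t * qI.re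
      rw [h1, qI_re]; ring
    · change Real.sin t = Real.cos t * (1 : H).imI + Real.sin t * qI.imI
      rw [h2, qI_imI]; ring
    · change (0 : ℝ) = Real.cos t * (1 : H).imJ + Real.sin t * qI.imJ
      rw [h3, qI_imJ]; ring
    · change (0 : ℝ) = Real.cos t * (1 : H).imK + Real.sin t * qI.imK
      rw [h4, qI_imK]; ring
  rw [this]
  fun_prop

theorem continuous_gq (i : Fin 4) : Continuous fun p : ℝ × ℝ => gq p.1 p.2 i := by
  have h := continuous_U
  fin_cases i
  · exact h.comp continuous_fst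
  · exact h.comp (continuous_fst.add continuous_const)
  · exact (h.comp continuous_snd).mul continuous_const
  · exact (h.comp (continuous_snd.add continuous_const)).mul continuous_const

theorem continuous_cf (k l : Fin 4) (ε δ : ℝ) : Continuous (cf k l ε δ) := by
  unfold cf
  exact ((continuous_gq k).const_smul ε).add ((continuous_gq l).const_smul δ)

/-- Left multiplication by a nonzero quaternion. -/
noncomputable def mulEquiv (a : H) (ha : a ≠ 0) : H ≃ₗ[ℝ] H where
  toFun y := a * y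
  map_add' x y := mul_add a x y
  map_smul' r x := by simp [mul_smul_comm]
  invFun y := a⁻¹ * y
  left_inv y := by simp [← mul_assoc, inv_mul_cancel₀ ha]
  right_inv y := by simp [← mul_assoc, mul_inv_cancel₀ ha]

theorem preimage_mul_null {S : Set H} (hS : volume S = 0) {a : H} (ha : a ≠ 0) :
    volume {y : H | a * y ∈ S} = 0 := by
  have h := MeasureTheory.Measure.addHaar_preimage_linearEquiv (volume : Measure H)
    (mulEquiv a ha) S
  rw [hS, mul_zero] at h
  exact h

theorem null_cf {S : Set H} (hS : volume S = 0) {k l : Fin 4} (hkl : k ≠ l) {ε δ : ℝ}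
    (hε : ε = 1 ∨ ε = -1) :
    volume {p : H × ℝ × ℝ | cf k l ε δ p.2 * p.1 ∈ S} = 0 := by
  set S' := toMeasurable volume S with hS'
  have hS'0 : volume S' = 0 := by rw [hS', measure_toMeasurable, hS]
  have hSm : MeasurableSet S' := measurableSet_toMeasurable _ _
  have hsub : {p : H × ℝ × ℝ | cf k l ε δ p.2 * p.1 ∈ S} ⊆
      {p : H × ℝ × ℝ | cf k l ε δ p.2 * p.1 ∈ S'} :=
    fun p hp => subset_toMeasurable _ _ hp
  refine measure_mono_null hsub ?_
  have hc : Continuous fun p : H × ℝ × ℝ => cf k l ε δ p.2 * p.1 :=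
    ((continuous_cf k l ε δ).comp continuous_snd).mul continuous_fst
  have hm : MeasurableSet {p : H × ℝ × ℝ | cf k l ε δ p.2 * p.1 ∈ S'} := hc.measurable hSm
  rw [Measure.volume_eq_prod, Measure.prod_apply_symm hm]
  have : ∀ q : ℝ × ℝ, volume ((fun x : H => (x, q)) ⁻¹'
      {p : H × ℝ × ℝ | cf k l ε δ p.2 * p.1 ∈ S'}) = 0 := fun q =>
    preimage_mul_null hS'0 (cf_ne_zero hkl hε q)
  simp only [this, lintegral_zero]

/-- All index data of `planar`. -/
theorem null_part {K : Set H} (hK : Wid K)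
    (hcone : ∀ q ∈ K, Cone60 (Nc K q)) :
    volume {p : H × ℝ × ℝ | ∃ q ∈ K, interior (Nc K q) = ∅ ∧ p ∈ BadSet (Nc K q)} = 0 := by
  have hsub : {p : H × ℝ × ℝ | ∃ q ∈ K, interior (Nc K q) = ∅ ∧ p ∈ BadSet (Nc K q)} ⊆
      ({(0 : H)} ×ˢ (Set.univ : Set (ℝ × ℝ))) ∪
      ⋃ (k : Fin 4) (l : Fin 4) (e : Bool) (d : Bool),
        {p : H × ℝ × ℝ | k ≠ l ∧ cf k l (if e then 1 else -1) (if d then 1 else -1) p.2 * p.1 ∈
          ESet K} := by
    rintro ⟨y, φ, ψ⟩ ⟨q, hq, hint, -, hb⟩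
    by_cases hy : y = 0
    · left; exact ⟨hy, trivial⟩
    right
    have hyn : 0 < ‖y‖ := norm_pos_iff.2 hy
    have hb' := hb.scale ‖y‖⁻¹
    have hn1 : ‖‖y‖⁻¹ • y‖ = 1 := by
      rw [norm_smul, norm_inv, norm_norm, inv_mul_cancel₀ hyn.ne']
    obtain ⟨k, l, hkl, ε, δ, hε, hδ, hu, v, hv, hv1, huv⟩ :=
      Pool.Agent.TH541.CWP.planar (hcone q hq) hint _ (orthonormal_fr _ hn1 φ ψ) hb'
    have hε' : ∃ e : Bool, (if e then (1 : ℝ) else -1) = ε := by
      rcases hε with h | h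
      · exact ⟨true, by simp [h]⟩
      · exact ⟨false, by simp [h]⟩
    have hδ' : ∃ e : Bool, (if e then (1 : ℝ) else -1) = δ := by
      rcases hδ with h | h
      · exact ⟨true, by simp [h]⟩
      · exact ⟨false, by simp [h]⟩
    obtain ⟨e, he⟩ := hε'
    obtain ⟨d, hd⟩ := hδ'
    simp only [Set.mem_iUnion]
    refine ⟨k, l, e, d, hkl, ?_⟩
    rw [he, hd]
    refine ⟨q, hq, _, hu, v, hv, √2 * ‖y‖, by positivity, ?_, ?_, hv1, huv⟩
    · rw [cf_mul, fr_smul, fr_smul, smul_comm ε, smul_comm δ, ← smul_add, smul_smul, smul_smul]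
      have : √2 * ‖y‖ * (√2)⁻¹ * ‖y‖⁻¹ = 1 := by
        have h2 : √2 ≠ 0 := by positivity
        field_simp
      rw [this, one_smul]
    · have ho := orthonormal_fr _ hn1 φ ψ
      have h1 : ‖ε • fr (‖y‖⁻¹ • y) φ ψ k + δ • fr (‖y‖⁻¹ • y) φ ψ l‖ ^ 2 = 2 := by
        rw [← real_inner_self_eq_norm_sq]
        simp only [inner_add_left, inner_add_right, real_inner_smul_left, real_inner_smul_right]
        rw [real_inner_self_eq_norm_sq, real_inner_self_eq_norm_sq, ho.1 k, ho.1 l,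
          inner_fr _ _ _ _ _ hkl, inner_fr _ _ _ _ _ hkl.symm]
        rcases hε with h | h <;> rcases hδ with h' | h' <;> rw [h, h'] <;> norm_num
      have h2 : ‖ε • fr (‖y‖⁻¹ • y) φ ψ k + δ • fr (‖y‖⁻¹ • y) φ ψ l‖ = √2 := by
        rw [← h1]; exact (Real.sqrt_sq (norm_nonneg _)).symm
      rw [norm_smul, h2, norm_inv, Real.norm_eq_abs, abs_of_pos (by positivity)]
      exact inv_mul_cancel₀ (by positivity)
  refine measure_mono_null hsub ?_
  rw [measure_union_null_iff]
  constructor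
  · rw [Measure.volume_eq_prod, Measure.prod_prod]
    simp
  · simp only [measure_iUnion_null_iff]
    intro k l e d
    by_cases hkl : k = l
    · have : {p : H × ℝ × ℝ | k ≠ l ∧ cf k l (if e then 1 else -1) (if d then 1 else -1) p.2 *
          p.1 ∈ ESet K} = ∅ := by
        ext p; simp [hkl]
      rw [this, measure_empty]
    · refine measure_mono_null (fun p hp => hp.2) (null_cf (ESet_null hK) hkl ?_)
      cases e <;> simp

end Pool.Agent.TH378.CW
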