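import Pool.Agent.TH378.CW.TcBound

/-!
# Numerical inequalities, part 1
-/

set_option autoImplicit false

namespace Pool.Agent.TH378.CW

open MeasureTheory Metric
open scoped Real RealInnerProductSpace

theorem MOK_sq {κ : ℝ} (h0 : 0 ≤ κ) (h1 : κ ≤ 36 / 100) : MOK κ (κ ^ 2) := by
  intro h hh hk
  refine ⟨by nlinarith [mul_nonneg (sq_nonneg h) (show 0 ≤ 1 - κ ^ 2 by nlinarith)], ?_⟩
  have h2 : h ^ 2 ≤ κ ^ 2 := by gcongr
  have h3 : 0 ≤ 1 - h ^ 2 := by nlinarith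
  rcases le_or_gt κ (1 / 9) with hs | hs
  · have a : (κ - h) * (4 * κ - 1 + 5 * h) ≤ 0 := by
      apply mul_nonpos_of_nonneg_of_nonpos <;> linarith
    have b : 0 ≤ 2 * κ ^ 2 * (1 - h ^ 2) := by positivity
    linarith
  · -- (5 - 2κ²)h² - (1+κ)h + κ - 2κ² ≥ 0
    have e : 2 * κ ^ 2 * (1 - h ^ 2) - (κ - h) * (4 * κ - 1 + 5 * h) =
        (5 - 2 * κ ^ 2) * h ^ 2 - (1 + κ) * h + κ - 2 * κ ^ 2 := by ring
    have d3 : (47408 / 10000 : ℝ) ≤ 5 - 2 * κ ^ 2 := by nlinarith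
    have d4 : 0 ≤ κ - 2 * κ ^ 2 := by nlinarith
    have d5 : (1 + κ) ^ 2 ≤ 4 * (47408 / 10000) * (κ - 2 * κ ^ 2) := by
      nlinarith [mul_nonneg (show 0 ≤ κ - 1 / 9 by linarith) (show 0 ≤ 36 / 100 - κ by linarith)]
    have d6 : (1 + κ) ^ 2 ≤ 4 * (5 - 2 * κ ^ 2) * (κ - 2 * κ ^ 2) := by
      have := mul_le_mul_of_nonneg_right d3 d4
      nlinarith
    have d7 : 0 ≤ 4 * (5 - 2 * κ ^ 2) * ((5 - 2 * κ ^ 2) * h ^ 2 - (1 + κ) * h + κ - 2 * κ ^ 2) := by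
      have : 4 * (5 - 2 * κ ^ 2) * ((5 - 2 * κ ^ 2) * h ^ 2 - (1 + κ) * h + κ - 2 * κ ^ 2) =
          (2 * (5 - 2 * κ ^ 2) * h - (1 + κ)) ^ 2 +
          (4 * (5 - 2 * κ ^ 2) * (κ - 2 * κ ^ 2) - (1 + κ) ^ 2) := by ring
      rw [this]
      have := sq_nonneg (2 * (5 - 2 * κ ^ 2) * h - (1 + κ))
      linarith
    have d8 : 0 < 4 * (5 - 2 * κ ^ 2) := by linarith
    have d9 := (mul_nonneg_iff_of_pos_left d8).1 d7
    linarith

theorem thin_ineq {s W r : ℝ} (hs0 : 0 < s) (hs1 : s < 1) (hW : 0 < W)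
    (h : 0 ≤ (1 + r) * (6 + W) * (2 + 3 * (1 - s) * W) + 2 * (1 - r) * (6 * s + W) -
      4 * (6 * s + W) * (2 + 3 * (1 - s) * W)) :
    4 ≤ (1 + r) * ((1 + W / 6) / (W / 6 + s)) + (1 - r) * (2 / (2 + 3 * (1 - s) * W)) := by
  have h1 : 0 < 6 * s + W := by linarith
  have h2 : 0 < 2 + 3 * (1 - s) * W := by
    have : 0 < (1 - s) * W := mul_pos (by linarith) hW
    linarith
  have e1 : (1 + W / 6) / (W / 6 + s) = (6 + W) / (6 * s + W) := by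
    rw [div_eq_div_iff (by linarith) h1.ne']; ring
  rw [e1, mul_div_assoc', mul_div_assoc', div_add_div _ _ h1.ne' h2.ne',
    le_div_iff₀ (mul_pos h1 h2)]
  linarith

end Pool.Agent.TH378.CW
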