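import Pool.Agent.TH378.CW.Num2

/-!
# Numerical inequalities, part 3
-/

set_option autoImplicit false

namespace Pool.Agent.TH378.CW

open MeasureTheory Metric
open scoped Real RealInnerProductSpace

theorem MOK_of {κ m : ℝ} (hm : κ ^ 2 ≤ m) (hm1 : m ≤ 1)
    (hd : (1 + κ) ^ 2 ≤ 4 * (5 - 2 * m) * (2 * m - 4 * κ ^ 2 + κ)) : MOK κ m := by
  intro h hh hk
  refine ⟨by nlinarith [mul_nonneg (sq_nonneg h) (show 0 ≤ 1 - m by linarith)], ?_⟩
  have d8 : 0 < 4 * (5 - 2 * m) := by linarith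
  have d7 : 0 ≤ 4 * (5 - 2 * m) * ((5 - 2 * m) * h ^ 2 - (1 + κ) * h + (2 * m - 4 * κ ^ 2 + κ)) := by
    have : 4 * (5 - 2 * m) * ((5 - 2 * m) * h ^ 2 - (1 + κ) * h + (2 * m - 4 * κ ^ 2 + κ)) =
        (2 * (5 - 2 * m) * h - (1 + κ)) ^ 2 +
          (4 * (5 - 2 * m) * (2 * m - 4 * κ ^ 2 + κ) - (1 + κ) ^ 2) := by ring
    rw [this]
    have := sq_nonneg (2 * (5 - 2 * m) * h - (1 + κ))
    linarith
  have d9 := (mul_nonneg_iff_of_pos_left d8).1 d7
  linarith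

/-- general form of the bound of the deficit -/
theorem delta_aux {L lm m D δ : ℝ} (hL0 : 0 < L) (hLlm : L + lm < 1) (h1 : lm ≤ 1 / 4)
    (hL : L < 1)
    (hm : m = min L (1 - 3 * lm)) (h : D * (1 - m - lm) ≤ 3 * L - 1 + lm - lm * (L - lm) / m)
    (hA : L ≤ 1 - 3 * lm → (3 * L - 1) * L + lm ^ 2 ≤ δ * L * (1 - L - lm))
    (hB : 1 - 3 * lm ≤ L → (3 * L - 1 + lm) * (1 - 3 * lm) - lm * (L - lm) ≤
      δ * (2 * lm) * (1 - 3 * lm)) : D ≤ δ := by
  rcases le_total L (1 - 3 * lm) with hc | hc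
  · have hA := hA hc
    rw [min_eq_left hc] at hm
    subst hm
    have e : 3 * m - 1 + lm - lm * (m - lm) / m = ((3 * m - 1) * m + lm ^ 2) / m := by
      field_simp; ring
    rw [e, le_div_iff₀ hL0] at h
    have : 0 < m * (1 - m - lm) := mul_pos hL0 (by linarith)
    by_contra hcon
    push Not at hcon
    nlinarith
  · have hB := hB hc
    rw [min_eq_right hc] at hm
    subst hm
    have p1 : 0 < 1 - 3 * lm := by linarith
    have p2 : 0 < lm := by linarith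
    have e : 3 * L - 1 + lm - lm * (L - lm) / (1 - 3 * lm) =
        ((3 * L - 1 + lm) * (1 - 3 * lm) - lm * (L - lm)) / (1 - 3 * lm) := by
      field_simp
    rw [e, le_div_iff₀ p1] at h
    have e2 : 1 - (1 - 3 * lm) - lm = 2 * lm := by ring
    rw [e2] at h
    have : 0 < 2 * lm * (1 - 3 * lm) := by positivity
    by_contra hcon
    push Not at hcon
    nlinarith

theorem deltaB1 {L lm m D : ℝ} (hL1 : 36 / 100 ≤ L) (hL2 : L ≤ 4 / 10) (h0 : 0 ≤ lm)
    (h1 : lm ≤ 1 / 4) (hm : m = min L (1 - 3 * lm))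
    (h : D * (1 - m - lm) ≤ 3 * L - 1 + lm - lm * (L - lm) / m) : D ≤ 8 / 10 := by
  refine delta_aux (by linarith) (by linarith) h1 (by linarith) hm h ?_ ?_
  · intro hc
    nlinarith [mul_nonneg h0 (show 0 ≤ 1 - 3 * lm - L by linarith), mul_nonneg (show 0 ≤ L - 36 / 100 by linarith) (show 0 ≤ 4/10 - L by linarith), mul_nonneg (show 0 ≤ L by linarith) (show 0 ≤ 1 - 3 * lm - L by linarith)]
  · intro hc
    nlinarith [mul_nonneg (show 0 ≤ 1 / 4 - lm by linarith) (show 0 ≤ L - (1 - 3 * lm) by linarith), mul_nonneg (show 0 ≤ 1 / 4 - lm by linarith) (show 0 ≤ 4/10 - L by linarith), mul_nonneg h0 (show 0 ≤ 4/10 - L by linarith)]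

theorem deltaB2 {L lm m D : ℝ} (hL1 : 34 / 100 ≤ L) (hL2 : L ≤ 36 / 100) (h0 : 0 ≤ lm)
    (h1 : lm ≤ 1 / 4) (hm : m = min L (1 - 3 * lm))
    (h : D * (1 - m - lm) ≤ 3 * L - 1 + lm - lm * (L - lm) / m) : D ≤ 1 / 2 := by
  refine delta_aux (by linarith) (by linarith) h1 (by linarith) hm h ?_ ?_
  · intro hc
    nlinarith [mul_nonneg h0 (show 0 ≤ 1 - 3 * lm - L by linarith), mul_nonneg (show 0 ≤ L - 34 / 100 by linarith) (show 0 ≤ 36/100 - L by linarith), mul_nonneg (show 0 ≤ L by linarith) (show 0 ≤ 1 - 3 * lm - L by linarith)]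
  · intro hc
    nlinarith [mul_nonneg (show 0 ≤ 1 / 4 - lm by linarith) (show 0 ≤ L - (1 - 3 * lm) by linarith), mul_nonneg (show 0 ≤ 1 / 4 - lm by linarith) (show 0 ≤ 36/100 - L by linarith), mul_nonneg h0 (show 0 ≤ 36/100 - L by linarith)]

theorem deltaB3 {L lm m D : ℝ} (hL1 : 1 / 3 ≤ L) (hL2 : L ≤ 34 / 100) (h0 : 0 ≤ lm)
    (h1 : lm ≤ 19 / 100) (hm : m = min L (1 - 3 * lm))
    (h : D * (1 - m - lm) ≤ 3 * L - 1 + lm - lm * (L - lm) / m) : D ≤ 27 / 100 := by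
  refine delta_aux (by linarith) (by linarith) (by linarith) (by linarith) hm h ?_ ?_
  · intro hc
    nlinarith [mul_nonneg h0 (show 0 ≤ 19 / 100 - lm by linarith), mul_nonneg (show 0 ≤ L - 1 / 3 by linarith) (show 0 ≤ 34/100 - L by linarith), mul_nonneg (show 0 ≤ L - 1 / 3 by linarith) (show 0 ≤ 19 / 100 - lm by linarith), mul_nonneg (show 0 ≤ 34 / 100 - L by linarith) (show 0 ≤ 19 / 100 - lm by linarith), mul_nonneg (show 0 ≤ 34 / 100 - L by linarith) h0]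
  · intro hc
    exfalso; linarith

theorem deltaB4 {L lm m D : ℝ} (hL1 : 33 / 100 ≤ L) (hL2 : L ≤ 1 / 3) (h0 : 0 ≤ lm)
    (h1 : lm ≤ 19 / 100) (hm : m = min L (1 - 3 * lm))
    (h : D * (1 - m - lm) ≤ 3 * L - 1 + lm - lm * (L - lm) / m) : D ≤ 23 / 100 := by
  refine delta_aux (by linarith) (by linarith) (by linarith) (by linarith) hm h ?_ ?_
  · intro hc
    nlinarith [mul_nonneg h0 (show 0 ≤ 19 / 100 - lm by linarith), mul_nonneg (show 0 ≤ L - 33 / 100 by linarith) (show 0 ≤ 1/3 - L by linarith), mul_nonneg (show 0 ≤ L - 33 / 100 by linarith) (show 0 ≤ 19 / 100 - lm by linarith), mul_nonneg (show 0 ≤ 1 / 3 - L by linarith) (show 0 ≤ 19 / 100 - lm by linarith), mul_nonneg (show 0 ≤ 1 / 3 - L by linarith) h0]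
  · intro hc
    exfalso; linarith

end Pool.Agent.TH378.CW
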