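import Pool.Agent.TH378.CW.Good1

/-!
# The slab of a cone
-/

set_option autoImplicit false

namespace Pool.Agent.TH378.CW

open MeasureTheory Metric
open scoped Real RealInnerProductSpace

theorem cap_of_min {C : Set H} {z : H} {s : ℝ} (hz0 : 0 < ‖z‖) (hs : ‖z‖ ^ 2 = 1 - s)
    (hz : ∀ u ∈ C, ‖u‖ = 1 → ‖z‖ ^ 2 ≤ ⟪u, z⟫) :
    ∀ u ∈ C, ‖u‖ = 1 → 1 - s ≤ ⟪u, (1 / ‖z‖) • z⟫ ^ 2 := by
  intro u hu hu1
  have h := hz u hu hu1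
  rw [real_inner_smul_right, ← hs]
  have h2 : ‖z‖ ≤ 1 / ‖z‖ * ⟪u, z⟫ := by
    rw [one_div, ← div_eq_inv_mul, le_div_iff₀ hz0]
    nlinarith
  have h3 : 0 ≤ ‖z‖ := hz0.le
  gcongr

theorem norm_unit {z : H} (hz0 : 0 < ‖z‖) : ‖(1 / ‖z‖) • z‖ = 1 := by
  rw [norm_smul, Real.norm_eq_abs, abs_of_pos (by positivity)]
  field_simp

theorem slab {C : Set H} (hC : Cone60 C) {z n : H} (hz0 : 0 < ‖z‖)
    (hz : ∀ u ∈ C, ‖u‖ = 1 → ‖z‖ ^ 2 ≤ ⟪u, z⟫) (hne : ∃ u ∈ C, ‖u‖ = 1) :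
    ∃ (tp tm : ℝ) (yp ym : H), yp ∈ C ∧ ‖yp‖ = 1 ∧ ym ∈ C ∧ ‖ym‖ = 1 ∧
      ‖z‖ * ⟪yp, n⟫ = tp * ⟪yp, z⟫ ∧ ‖z‖ * ⟪ym, n⟫ = -tm * ⟪ym, z⟫ ∧
      ∀ u ∈ C, -tm * ⟪u, z⟫ ≤ ‖z‖ * ⟪u, n⟫ ∧ ‖z‖ * ⟪u, n⟫ ≤ tp * ⟪u, z⟫ := by
  set N : Set H := C ∩ sphere 0 1 with hN
  have hNc : IsCompact N := (isCompact_sphere (0 : H) 1).inter_left hC.closed
  have hNne : N.Nonempty := by
    obtain ⟨u, hu, hu1⟩ := hne
    exact ⟨u, hu, by simpa using hu1⟩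
  have hpos : ∀ u ∈ N, 0 < ⟪u, z⟫ := by
    intro u hu
    have := hz u hu.1 (by simpa using hu.2)
    have h2 : 0 < ‖z‖ ^ 2 := by positivity
    linarith
  have hcont : ContinuousOn (fun u : H => ‖z‖ * ⟪u, n⟫ / ⟪u, z⟫) N := by
    apply ContinuousOn.div (by fun_prop) (by fun_prop)
    intro u hu
    exact (hpos u hu).ne'
  obtain ⟨yp, hyp, hmax⟩ := hNc.exists_isMaxOn hNne hcont
  obtain ⟨ym, hym, hmin⟩ := hNc.exists_isMinOn hNne hcont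
  refine ⟨‖z‖ * ⟪yp, n⟫ / ⟪yp, z⟫, -(‖z‖ * ⟪ym, n⟫ / ⟪ym, z⟫), yp, ym, hyp.1,
    by simpa using hyp.2, hym.1, by simpa using hym.2, ?_, ?_, ?_⟩
  · have := (hpos yp hyp).ne'
    field_simp
  · have := (hpos ym hym).ne'
    field_simp
  · intro u hu
    by_cases hu0 : u = 0
    · subst hu0; simp
    have hun : 0 < ‖u‖ := norm_pos_iff.2 hu0
    have hv : ‖u‖⁻¹ • u ∈ N := by
      refine ⟨hC.smul u hu _ (by positivity), ?_⟩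
      simp only [mem_sphere_iff_norm, sub_zero]
      rw [norm_smul, norm_inv, norm_norm, inv_mul_cancel₀ hun.ne']
    have h1 : ‖z‖ * ⟪‖u‖⁻¹ • u, n⟫ / ⟪‖u‖⁻¹ • u, z⟫ ≤ ‖z‖ * ⟪yp, n⟫ / ⟪yp, z⟫ := hmax hv
    have h2 : ‖z‖ * ⟪ym, n⟫ / ⟪ym, z⟫ ≤ ‖z‖ * ⟪‖u‖⁻¹ • u, n⟫ / ⟪‖u‖⁻¹ • u, z⟫ := hmin hv
    have h3 := hpos _ hv
    rw [div_le_iff₀ h3, real_inner_smul_left, real_inner_smul_left] at h1
    rw [le_div_iff₀ h3, real_inner_smul_left, real_inner_smul_left] at h2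
    have hi : 0 < ‖u‖⁻¹ := by positivity
    constructor
    · have : ‖u‖⁻¹ * (-(-(‖z‖ * ⟪ym, n⟫ / ⟪ym, z⟫)) * ⟪u, z⟫) ≤ ‖u‖⁻¹ * (‖z‖ * ⟪u, n⟫) := by
        linarith
      exact le_of_mul_le_mul_left this hi
    · have : ‖u‖⁻¹ * (‖z‖ * ⟪u, n⟫) ≤ ‖u‖⁻¹ * (‖z‖ * ⟪yp, n⟫ / ⟪yp, z⟫ * ⟪u, z⟫) := by
        linarith
      exact le_of_mul_le_mul_left this hi

theorem slab_pos {C : Set H} (hint : (interior C).Nonempty) {z n : H} (hz0 : 0 < ‖z‖)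
    (hzC : z ∈ C) (hn : ‖n‖ = 1) (hnz : ⟪n, z⟫ = 0) {tp tm : ℝ}
    (hT : ∀ u ∈ C, -tm * ⟪u, z⟫ ≤ ‖z‖ * ⟪u, n⟫ ∧ ‖z‖ * ⟪u, n⟫ ≤ tp * ⟪u, z⟫) :
    0 ≤ tp ∧ 0 ≤ tm ∧ 0 < tp + tm := by
  obtain ⟨h1, h2⟩ := hT z hzC
  have hzz : ⟪z, z⟫ = ‖z‖ ^ 2 := real_inner_self_eq_norm_sq z
  have hzn : ⟪z, n⟫ = 0 := by rw [real_inner_comm]; exact hnz
  rw [hzz, hzn, mul_zero] at h1 h2
  have hz2 : 0 < ‖z‖ ^ 2 := by positivity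
  have htp : 0 ≤ tp := by
    by_contra hcon; push Not at hcon; nlinarith
  have htm : 0 ≤ tm := by
    by_contra hcon; push Not at hcon; nlinarith
  refine ⟨htp, htm, ?_⟩
  rcases htp.eq_or_lt with h3 | h3
  swap
  · linarith
  rcases htm.eq_or_lt with h4 | h4
  swap
  · linarith
  exfalso
  have key : ∀ u ∈ C, ⟪u, n⟫ = 0 := by
    intro u hu
    obtain ⟨k1, k2⟩ := hT u hu
    rw [← h4, neg_zero, zero_mul] at k1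
    rw [← h3, zero_mul] at k2
    have : ‖z‖ * ⟪u, n⟫ = 0 := le_antisymm k2 k1
    exact (mul_eq_zero.1 this).resolve_left hz0.ne'
  obtain ⟨u, hu⟩ := hint
  obtain ⟨ε, hε, hball⟩ := Metric.mem_nhds_iff.1 (mem_interior_iff_mem_nhds.1 hu)
  have hm : u + (ε / 2) • n ∈ C := by
    apply hball
    rw [mem_ball, dist_eq_norm, add_sub_cancel_left, norm_smul, hn, mul_one, Real.norm_eq_abs,
      abs_of_pos (by positivity)]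
    linarith
  have e1 := key _ hm
  have e2 := key _ (interior_subset hu)
  rw [inner_add_left, real_inner_smul_left, e2, real_inner_self_eq_norm_sq, hn] at e1
  linarith

end Pool.Agent.TH378.CW
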