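import Pool.Agent.TH378.CW.Frame

/-!
# The product of two arcs
-/

set_option autoImplicit false

namespace Pool.Agent.TH378.CW

open MeasureTheory Metric
open scoped Real RealInnerProductSpace

/-- The quadratic conditions under which `π ^ 2 / 9 * m` bounds the product of the two arcs. -/
def MOK (κ m : ℝ) : Prop :=
  ∀ h : ℝ, 0 ≤ h → h ≤ κ →
    (κ - h) * (κ + h) ≤ m * (1 - h ^ 2) ∧ (κ - h) * (4 * κ - 1 + 5 * h) ≤ 2 * m * (1 - h ^ 2)

theorem Tc_nonneg (x : ℝ) : 0 ≤ Tc x := le_max_left _ _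

theorem Tc_neg {x : ℝ} (hx : x ≤ 0) : Tc x = 0 := by
  unfold Tc
  apply max_eq_left
  refine le_trans (min_le_right _ _) (max_le ?_ ?_)
  · have := Real.pi_pos
    nlinarith
  · have := Real.pi_pos
    nlinarith

theorem Tc_le_max {x : ℝ} (hx : 0 ≤ x) :
    Tc x ≤ max (π / 3 * x) (2 * π / 3 * x - π / 6) := by
  unfold Tc
  refine max_le (le_max_of_le_left ?_) (min_le_right _ _)
  have := Real.pi_pos
  positivity

theorem Tc_le_half {x : ℝ} (hx : 0 ≤ x) (hx2 : x ≤ 1 / 2) : Tc x ≤ π / 3 * x := by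
  refine le_trans (Tc_le_max hx) (max_le le_rfl ?_)
  have := Real.pi_pos
  nlinarith

theorem MOK.nonneg {κ m : ℝ} (h : MOK κ m) (h0 : 0 ≤ κ) (h1 : κ ≤ 1 / 2) : 0 ≤ m := by
  have := (h κ h0 le_rfl).1
  have h2 : 0 < 1 - κ ^ 2 := by nlinarith
  by_contra hm
  push Not at hm
  nlinarith

theorem Tc_prod_aux {κ m : ℝ} (hm : MOK κ m) (h0 : 0 ≤ κ) (h1 : κ ≤ 1 / 2) (h : ℝ) (hh : 0 ≤ h)
    (hh1 : h < 1) :
    Tc ((κ - h) / (1 + h)) * Tc ((κ + h) / (1 - h)) ≤ π ^ 2 / 9 * m := by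
  have hm0 := hm.nonneg h0 h1
  have hpi := Real.pi_pos
  rcases lt_or_ge κ h with hlt | hge
  · rw [Tc_neg, zero_mul]
    · positivity
    · exact div_nonpos_of_nonpos_of_nonneg (by linarith) (by linarith)
  obtain ⟨e1, e2⟩ := hm h hh hge
  have p1 : 0 < 1 + h := by linarith
  have p2 : 0 < 1 - h := by linarith
  set x1 := (κ - h) / (1 + h) with hx1
  set x2 := (κ + h) / (1 - h) with hx2
  have f1 : x1 * (1 + h) = κ - h := by rw [hx1]; field_simp
  have f2 : x2 * (1 - h) = κ + h := by rw [hx2]; field_simp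
  have g1 : 0 ≤ x1 := div_nonneg (by linarith) p1.le
  have g2 : 0 ≤ x2 := div_nonneg (by linarith) p2.le
  have g3 : x1 ≤ 1 / 2 := by
    rw [hx1, div_le_iff₀ p1]; nlinarith
  have k1 := Tc_le_half g1 g3
  have k2 := Tc_le_max g2
  have hq : 0 < (1 + h) * (1 - h) := mul_pos p1 p2
  calc Tc x1 * Tc x2 ≤ (π / 3 * x1) * max (π / 3 * x2) (2 * π / 3 * x2 - π / 6) :=
        mul_le_mul k1 k2 (Tc_nonneg _) (by positivity)
    _ ≤ π ^ 2 / 9 * m := by
        rw [mul_max_of_nonneg _ _ (by positivity)]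
        apply max_le
        · have : x1 * x2 ≤ m := by
            rw [← mul_le_mul_iff_left₀ hq]
            calc x1 * x2 * ((1 + h) * (1 - h)) = (x1 * (1 + h)) * (x2 * (1 - h)) := by ring
              _ = (κ - h) * (κ + h) := by rw [f1, f2]
              _ ≤ m * ((1 + h) * (1 - h)) := by linarith [e1]
          calc π / 3 * x1 * (π / 3 * x2) = π ^ 2 / 9 * (x1 * x2) := by ring
            _ ≤ _ := by gcongr
        · have : x1 * (2 * x2 - 1 / 2) ≤ m := by
            rw [← mul_le_mul_iff_left₀ hq]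
            calc x1 * (2 * x2 - 1 / 2) * ((1 + h) * (1 - h))
                = (x1 * (1 + h)) * (2 * (x2 * (1 - h)) - 1 / 2 * (1 - h)) := by ring
              _ = (κ - h) * (2 * (κ + h) - 1 / 2 * (1 - h)) := by rw [f1, f2]
              _ ≤ m * ((1 + h) * (1 - h)) := by linarith [e2]
          calc π / 3 * x1 * (2 * π / 3 * x2 - π / 6) = π ^ 2 / 9 * (x1 * (2 * x2 - 1 / 2)) := by ring
            _ ≤ _ := by gcongr

theorem Tc_prod {κ m : ℝ} (hm : MOK κ m) (h0 : 0 ≤ κ) (h1 : κ ≤ 1 / 2) (h : ℝ) (hh : -1 < h)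
    (hh1 : h < 1) :
    Tc ((κ - h) / (1 + h)) * Tc ((κ + h) / (1 - h)) ≤ π ^ 2 / 9 * m := by
  rcases le_total 0 h with hp | hn
  · exact Tc_prod_aux hm h0 h1 h hp hh1
  · have := Tc_prod_aux hm h0 h1 (-h) (by linarith) (by linarith)
    rw [mul_comm]
    simpa only [sub_neg_eq_add, ← sub_eq_add_neg] using this

end Pool.Agent.TH378.CW
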